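import Pool.Agent.Helper61.LG.Ld

set_option autoImplicit false

/-!
# The configuration of the zeros of a completed L-function
-/

namespace Pool.Agent.Helper61.LG

open Complex Filter Topology Set MeasureTheory
open Pool.Agent.Helper61.W Pool.Agent.Helper61.W.GS
open Pool.Agent.Helper40.HW
open scoped ComplexConjugate

section form

variable {G : ℂ → ℂ} {ε : ℂ} {β a : ℝ}

/-- the real part of the autocorrelation as a complex function -/
noncomputable def Rc (g : ℝ → ℂ) (u : ℝ) : ℂ := (((∫ y : ℝ, g y * conj (g (y - u))).re : ℝ) : ℂ)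

lemma LT_Rc (g : ℝ → ℂ) (z : ℂ) : W.LT (Ps g) z = 2 * W.LT (Rc g) z := by
  unfold W.LT
  rw [← integral_const_mul]
  congr 1
  funext u
  rw [Ps_eq]
  have e : Rc g u = (((corr g u).re : ℝ) : ℂ) := rfl
  rw [e]
  push_cast
  ring

/-- the form as an integral on the right -/
theorem Sy.form_eq (S : Sy G ε β) {κ : ℝ} (hκ : β < κ) {g : ℝ → ℂ} (hg : g ∈ Ts a) :
    ∑' z : Zt G, GA.wz (fun z : Zt G => (z : ℂ)) (mt G) g g z =
      1 / Real.pi * ∫ y : ℝ, deriv G (κ + y * I) / G (κ + y * I) * W.LT (Rc g) (κ + y * I) := by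
  have hgt := Ts.tf hg
  set Wt : ℂ := ∑' z : Zt G, GA.wz (fun z : Zt G => (z : ℂ)) (mt G) g g z with hWt
  have h1 : Wt = ∑' z : Zt G, (mt G z : ℂ) * W.LT (corr g) z := by
    refine tsum_congr fun z => ?_
    unfold GA.wz
    rw [LT_corr hgt]
  have h2 : Wt = ∑' z : Zt G, (mt G z : ℂ) * W.LT (corr g) (-z) := by
    rw [h1, ← S.neg.tsum_eq]
    refine tsum_congr fun z => ?_
    rw [S.mt_neg]
    rfl
  obtain ⟨i1, hs⟩ := S.zero_sum (Ps_tf hgt) (Ps_even g) hκ
  have hsA := S.summable_LT hgt.corr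
  have hsB : Summable fun z : Zt G => (mt G z : ℂ) * W.LT (corr g) (-z) := by
    rw [← S.neg.summable_iff]
    refine hsA.congr fun z => ?_
    simp only [Function.comp_apply]
    rw [S.mt_neg, show ((S.neg z : Zt G) : ℂ) = -z from rfl, neg_neg]
  have h3 : 2 * Wt = 1 / Real.pi * ∫ y : ℝ, W.LT (Ps g) (κ + y * I) * (deriv G (κ + y * I) / G (κ + y * I)) := by
    rw [← hs.tsum_eq]
    have e : ∀ z : Zt G, (mt G z : ℂ) * W.LT (Ps g) z =
        (mt G z : ℂ) * W.LT (corr g) z + (mt G z : ℂ) * W.LT (corr g) (-z) := by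
      intro z
      rw [LT_Ps hgt]
      ring
    rw [tsum_congr e, hsA.tsum_add hsB, ← h1, ← h2]
    ring
  have h4 : ∫ y : ℝ, W.LT (Ps g) (κ + y * I) * (deriv G (κ + y * I) / G (κ + y * I)) =
      2 * ∫ y : ℝ, deriv G (κ + y * I) / G (κ + y * I) * W.LT (Rc g) (κ + y * I) := by
    rw [← integral_const_mul]
    congr 1
    funext y
    rw [LT_Rc]
    ring
  rw [h4] at h3
  linear_combination (1 / 2 : ℂ) * h3

end form

variable {m k : ℕ} {μ : Fin m → ℝ} {ρ : Fin k → ℂ} {A c β : ℝ} {D F : ℂ → ℂ} {ε : ℂ}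

lemma G_conj (h : LF μ ρ A c β D F ε) (z : ℂ) : F (c + conj z) = conj (F (c + z)) := by
  rw [← h.conj, map_add, Complex.conj_ofReal]

lemma G_refl (h : LF μ ρ A c β D F ε) {z : ℂ} (hz : F (c + z) = 0) : F (c + -conj z) = 0 := by
  have h1 : F (c + -conj z) = ε * F (c + conj z) := (sy h).symm (conj z)
  rw [h1, G_conj h, hz, map_zero, mul_zero]

/-- the reflection of the zeros -/
noncomputable def rfe (h : LF μ ρ A c β D F ε) : Zt (fun z => F (c + z)) ≃ Zt (fun z => F (c + z)) where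
  toFun z := ⟨-conj (z : ℂ), G_refl h z.2⟩
  invFun z := ⟨-conj (z : ℂ), G_refl h z.2⟩
  left_inv z := Subtype.ext (by simp)
  right_inv z := Subtype.ext (by simp)

/-- the configuration of the zeros -/
noncomputable def dat (h : LF μ ρ A c β D F ε) (t : Tn D) : GA.Dat where
  ι := Zt (fun z => F (c + z))
  z := fun z => (z : ℂ)
  m := mt (fun z => F (c + z))
  β := β
  one_le := (sy h).one_le
  re_le := fun z => (sy h).strip z z.2
  sum := by
    have S := sy h
    have hβ := S.β0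
    refine Summable.of_nonneg_of_le (fun z => ?_) (fun z => ?_) (S.summable.mul_right ((1 + β) ^ 2))
    · have := S.one_le z
      positivity
    · have hm0 : 0 ≤ mt (fun z => F (c + z)) z := by linarith [S.one_le z]
      have e : (1 + |(z : ℂ).im|) ^ (2 : ℝ) = (1 + |(z : ℂ).im|) ^ 2 := by norm_cast
      rw [e, div_mul_eq_mul_div, div_le_div_iff₀ (by positivity) (by positivity)]
      have h1 : 1 + ‖(z : ℂ)‖ ≤ (1 + β) * (1 + |(z : ℂ).im|) := by
        have h2 := Complex.norm_le_abs_re_add_abs_im (z : ℂ)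
        have h3 := S.strip z z.2
        nlinarith [abs_nonneg (z : ℂ).im, mul_nonneg hβ (abs_nonneg (z : ℂ).im)]
      have h4 : (1 + ‖(z : ℂ)‖) ^ 2 ≤ ((1 + β) * (1 + |(z : ℂ).im|)) ^ 2 := by gcongr
      calc mt (fun z => F (c + z)) z * (1 + ‖(z : ℂ)‖) ^ 2 ≤
            mt (fun z => F (c + z)) z * ((1 + β) * (1 + |(z : ℂ).im|)) ^ 2 := mul_le_mul_of_nonneg_left h4 hm0
        _ = _ := by ring
  refl := rfe h
  z_refl := fun _ => rfl
  m_refl := fun z => by
    have S := sy h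
    have h1 : analyticOrderAt (fun z => F (c + z)) (-conj (z : ℂ)) = analyticOrderAt (fun z => F (c + z)) (z : ℂ) := by
      rw [S.order_neg, order_conj S.diff (fun w => G_conj h w) _ (S.order_ne_top _)]
    unfold mt analyticOrderNatAt
    rw [← h1]
    rfl
  inj := Subtype.val_injective
  approx := fun a ha => by
    obtain ⟨κ, M, hκ, hM⟩ := line_bound h t
    have hm : (1 : ℝ) ≤ m := by exact_mod_cast h.m1
    exact (sy h).approx hκ hm hM ha

lemma dat_form (h : LF μ ρ A c β D F ε) (t : Tn D) {a κ : ℝ} (hκ : β < κ) {g : ℝ → ℂ} (hg : g ∈ Ts a) :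
    (dat h t).Wf g g = 1 / Real.pi * ∫ y : ℝ, deriv F (c + (κ + y * I)) / F (c + (κ + y * I)) *
      W.LT (Rc g) (κ + y * I) := by
  have h1 := (sy h).form_eq hκ hg
  have e : ∀ y : ℝ, deriv (fun z => F (c + z)) (κ + y * I) = deriv F (c + (κ + y * I)) := by
    intro y
    rw [deriv_comp_const_add]
  simp_rw [e] at h1
  exact h1

end Pool.Agent.Helper61.LG
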