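import Pool.Agent.Helper61.LG.Lo
import Pool.Agent.Helper40.HW.Mul

set_option autoImplicit false

/-!
# The logarithmic derivative of a completed L-function on a vertical line on the right
-/

namespace Pool.Agent.Helper61.LG

open Complex Filter Topology Set
open Pool.Agent.Helper61.W
open Pool.Agent.Helper40.HW
open scoped ComplexConjugate

/-- the sum of the inverse squares -/
noncomputable def S2 : ℝ := ∑' n : ℕ, 1 / ((n : ℝ) + 1) ^ 2

lemma S2_nonneg : 0 ≤ S2 := tsum_nonneg fun n => by positivity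

lemma ar_sub {s s' : ℂ} (hs : 0 ≤ s.re) (hs' : 0 ≤ s'.re) (n : ℕ) :
    ‖ar n s - ar n s'‖ ≤ ‖s - s'‖ * (1 / ((n : ℝ) + 1) ^ 2) := by
  have hn : (0 : ℝ) ≤ n := Nat.cast_nonneg n
  have key : ∀ u : ℂ, 0 ≤ u.re → (n : ℝ) + 1 ≤ ‖u + 2 * ((n : ℂ) + 1)‖ := by
    intro u hu
    refine le_trans ?_ (Complex.re_le_norm _)
    simp
    linarith
  have k1 := key s hs
  have k2 := key s' hs'
  have n1 : s + 2 * ((n : ℂ) + 1) ≠ 0 := fun h => by
    rw [h, norm_zero] at k1
    linarith
  have n2 : s' + 2 * ((n : ℂ) + 1) ≠ 0 := fun h => by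
    rw [h, norm_zero] at k2
    linarith
  have e : ar n s - ar n s' = (s - s') / ((s + 2 * ((n : ℂ) + 1)) * (s' + 2 * ((n : ℂ) + 1))) := by
    unfold ar
    field_simp
    ring
  rw [e, norm_div, norm_mul, mul_one_div]
  apply div_le_div_of_nonneg_left (norm_nonneg _) (by positivity)
  rw [pow_two]
  exact mul_le_mul k1 k2 (by positivity) (norm_nonneg _)

lemma tsum_ar_sub {s s' : ℂ} (hs : 0 ≤ s.re) (hs' : 0 ≤ s'.re) :
    ‖(∑' n : ℕ, ar n s) - ∑' n : ℕ, ar n s'‖ ≤ ‖s - s'‖ * S2 := by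
  rw [← (summable_ar hs).tsum_sub (summable_ar hs')]
  unfold S2
  exact tsum_of_norm_bounded (H370.DG.summable_inv_sq.hasSum.mul_left _) fun n => ar_sub hs hs' n

lemma logDeriv_Gammaℝ_series {z : ℂ} (hz : 0 < z.re) : logDeriv Gammaℝ z =
    -(Real.log Real.pi : ℂ) / 2 - (Real.eulerMascheroniConstant : ℂ) / 2 - 1 / z + ∑' n : ℕ, ar n z := by
  have hz2 : 0 < (z / 2).re := by
    have : (z / 2).re = z.re / 2 := by simp
    rw [this]
    linarith
  have hz0 : z ≠ 0 := by
    intro h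
    rw [h] at hz
    simp at hz
  rw [logDeriv_Gammaℝ' hz, digamma_series hz2]
  have e : ∑' n : ℕ, ar n z = 1 / 2 * ∑' n : ℕ, tt n (z / 2) := by
    rw [← tsum_mul_left]
    exact tsum_congr fun n => ar_eq n z
  rw [e]
  field_simp
  ring

variable {m k : ℕ} {μ : Fin m → ℝ} {ρ : Fin k → ℂ} {A c β : ℝ} {D F : ℂ → ℂ} {ε : ℂ}

lemma sy (h : LF μ ρ A c β D F ε) : Sy (fun z => F (c + z)) ε β where
  diff := h.diff.comp (by fun_prop)
  ne := ⟨((β + 1 : ℝ) : ℂ), h.zero_free (by simp)⟩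
  growth := by
    obtain ⟨C, hC, hg⟩ := h.growth
    refine ⟨C * (1 + |c|) ^ (6 / 5 : ℝ), by positivity, fun z => ?_⟩
    refine (hg _ (mem_univ _)).trans (Real.exp_le_exp.mpr ?_)
    rw [mul_assoc, ← Real.mul_rpow (by positivity) (by positivity)]
    have h1 : 1 + ‖(c : ℂ) + z‖ ≤ (1 + |c|) * (1 + ‖z‖) := by
      have h2 := norm_add_le (c : ℂ) z
      rw [Complex.norm_real, Real.norm_eq_abs] at h2
      nlinarith [abs_nonneg c, norm_nonneg z, mul_nonneg (abs_nonneg c) (norm_nonneg z)]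
    gcongr
  sgn := h.eps
  symm z := by
    have h1 := h.fe (c + z)
    have e : 2 * (c : ℂ) - (c + z) = c + -z := by ring
    rw [e] at h1
    exact h1
  β0 := by linarith [h.β1]
  strip z hz := by
    have h1 := h.zero_strip hz
    have e : ((c : ℂ) + z).re - c = z.re := by simp
    rwa [e] at h1

theorem line_bound (h : LF μ ρ A c β D F ε) (t : Tn D) : ∃ κ M : ℝ, β < κ ∧
    ∀ y : ℝ, ‖deriv (fun z => F (c + z)) (κ + y * I) / F (c + (κ + y * I)) - (m : ℝ) * Ar κ y‖ ≤ M := by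
  obtain ⟨R, hR⟩ := t (1 / 2) (by norm_num)
  have hβ := h.β1
  set κ : ℝ := max (β + 1) (R - c) + 1 with hκ
  have hκ1 : β + 2 ≤ κ := by
    have := le_max_left (β + 1) (R - c)
    linarith
  have hκ2 : R + 1 ≤ c + κ := by
    have := le_max_right (β + 1) (R - c)
    linarith
  refine ⟨κ, k + (|Real.log A| / 2 + ∑ j : Fin m, (|Real.log Real.pi| / 2 + Real.eulerMascheroniConstant / 2 +
    1 / κ + |c + μ j - 1 / 2| * S2)) + 1, by linarith, fun y => ?_⟩
  have hκ0 : 0 < κ := by linarith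
  set s : ℂ := c + (κ + y * I) with hs
  have hsre : s.re = c + κ := by simp [hs]
  have hsβ : c + β < s.re := by rw [hsre]; linarith
  -- derivative of the shifted function
  have hder : deriv (fun z => F (c + z)) (κ + y * I) = deriv F s := by
    rw [deriv_comp_const_add]
  rw [hder]
  -- differentiability of the series
  have hDev : ∀ u : ℂ, c + β < u.re → DifferentiableAt ℂ D u := by
    intro u hu
    have hopen : IsOpen {v : ℂ | c + β < v.re} := isOpen_lt continuous_const Complex.continuous_re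
    have hev : D =ᶠ[𝓝 u] fun v => F v * (∏ i, (v - ρ i))⁻¹ * Hi' μ A v := by
      filter_upwards [hopen.mem_nhds hu] with v hv
      have hv' : c + β < v.re := hv
      have hP : (∏ i, (v - ρ i)) ≠ 0 := by
        refine Finset.prod_ne_zero_iff.mpr fun i _ h0 => ?_
        have h1 := h.ρ0 i
        rw [sub_eq_zero] at h0
        rw [← h0] at h1
        linarith
      have h2 := Hi'_mul (μ := μ) h.A0 (s := v) fun j => h.gam_ne (by linarith) j
      rw [h.eq v hv']
      field_simp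
      linear_combination -(D v) * h2
    refine DifferentiableAt.congr_of_eventuallyEq ?_ hev
    have hP : (∏ i, (u - ρ i)) ≠ 0 := by
      refine Finset.prod_ne_zero_iff.mpr fun i _ h0 => ?_
      have h1 := h.ρ0 i
      rw [sub_eq_zero] at h0
      rw [← h0] at h1
      linarith
    exact ((h.diff u).mul (DifferentiableAt.inv (by fun_prop) hP)).mul (Hi'_diff u)
  have hP0 : ∀ i, s - ρ i ≠ 0 := by
    intro i h0
    have h1 := h.ρ0 i
    rw [sub_eq_zero] at h0
    rw [← h0] at h1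
    linarith
  have hG0 : ∀ j, Gammaℝ (s + μ j) ≠ 0 := fun j => h.gam_ne (by linarith) j
  have hGre : ∀ j, 0 < (s + μ j).re := fun j => by
    have := h.μ0 j
    simp [hsre]
    linarith
  have hGd : ∀ j, DifferentiableAt ℂ Gammaℝ (s + μ j) := fun j => (analyticAt_Gammaℝ (hGre j)).differentiableAt
  have hGd' : ∀ j, DifferentiableAt ℂ (fun v : ℂ => Gammaℝ (v + μ j)) s := fun j =>
    DifferentiableAt.comp s (hGd j) (differentiableAt_id.add_const _)
  -- the logarithmic derivative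
  have hld : deriv F s / F s = (∑ i, 1 / (s - ρ i)) + (((Real.log A / 2 : ℝ) : ℂ) +
      ∑ j, logDeriv Gammaℝ (s + μ j)) + logDeriv D s := by
    have hopen : IsOpen {v : ℂ | c + β < v.re} := isOpen_lt continuous_const Complex.continuous_re
    have hev : F =ᶠ[𝓝 s] fun v => (∏ i, (v - ρ i)) * (cexp ((Real.log A / 2 : ℝ) * v) *
        ∏ j, Gammaℝ (v + μ j)) * D v := by
      filter_upwards [hopen.mem_nhds hsβ] with v hv
      rw [h.eq v hv, Hf_eq h.A0]
    have e1 : deriv F s / F s = logDeriv (fun v => (∏ i, (v - ρ i)) * (cexp ((Real.log A / 2 : ℝ) * v) *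
        ∏ j, Gammaℝ (v + μ j)) * D v) s := by
      rw [logDeriv_apply, hev.deriv_eq, hev.eq_of_nhds]
    have d1 : DifferentiableAt ℂ (fun v : ℂ => ∏ i, (v - ρ i)) s := by fun_prop
    have d2 : DifferentiableAt ℂ (fun v : ℂ => cexp ((Real.log A / 2 : ℝ) * v)) s := by fun_prop
    have d3 : DifferentiableAt ℂ (fun v : ℂ => ∏ j, Gammaℝ (v + μ j)) s :=
      DifferentiableAt.fun_finsetProd fun j _ => hGd' j
    have z1 : (∏ i, (s - ρ i)) ≠ 0 := Finset.prod_ne_zero_iff.mpr fun i _ => hP0 i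
    have z3 : (∏ j, Gammaℝ (s + μ j)) ≠ 0 := Finset.prod_ne_zero_iff.mpr fun j _ => hG0 j
    have l1 := logDeriv_mul (f := fun v : ℂ => (∏ i, (v - ρ i)) * (cexp ((Real.log A / 2 : ℝ) * v) *
      ∏ j, Gammaℝ (v + μ j))) (g := D) s (mul_ne_zero z1 (mul_ne_zero (Complex.exp_ne_zero _) z3)) (h.Dz s hsβ)
      (d1.mul (d2.mul d3)) (hDev s hsβ)
    have l2 := logDeriv_mul (f := fun v : ℂ => ∏ i, (v - ρ i)) (g := fun v : ℂ => cexp ((Real.log A / 2 : ℝ) * v) *
      ∏ j, Gammaℝ (v + μ j)) s z1 (mul_ne_zero (Complex.exp_ne_zero _) z3) d1 (d2.mul d3)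
    have l3 := logDeriv_mul (f := fun v : ℂ => cexp ((Real.log A / 2 : ℝ) * v))
      (g := fun v : ℂ => ∏ j, Gammaℝ (v + μ j)) s (Complex.exp_ne_zero _) z3 d2 d3
    rw [e1, l1, l2, l3,
      logDeriv_prod (x := s) (f := fun (i : Fin k) (v : ℂ) => v - ρ i) (fun i _ => hP0 i)
        (fun i _ => (differentiableAt_id.sub_const _)),
      logDeriv_prod (x := s) (f := fun (j : Fin m) (v : ℂ) => Gammaℝ (v + μ j)) (fun j _ => hG0 j)
        (fun j _ => hGd' j)]
    congr 2
    · refine Finset.sum_congr rfl fun i _ => ?_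
      rw [logDeriv_apply]
      congr 1
      simp
    · congr 1
      · rw [logDeriv_apply]
        have hd : HasDerivAt (fun v : ℂ => cexp ((Real.log A / 2 : ℝ) * v))
            (cexp ((Real.log A / 2 : ℝ) * s) * ((Real.log A / 2 : ℝ) * 1)) s :=
          ((hasDerivAt_id s).const_mul _).cexp
        rw [hd.deriv, mul_one, mul_comm, mul_div_assoc, div_self (Complex.exp_ne_zero _), mul_one]
      · refine Finset.sum_congr rfl fun j _ => ?_
        rw [logDeriv_apply, logDeriv_apply, deriv_comp_add_const]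
  rw [hld]
  -- the bounds
  have b1 : ‖∑ i, 1 / (s - ρ i)‖ ≤ k := by
    refine (norm_sum_le _ _).trans ?_
    calc ∑ i : Fin k, ‖1 / (s - ρ i)‖ ≤ ∑ i : Fin k, (1 : ℝ) := by
          refine Finset.sum_le_sum fun i _ => ?_
          rw [norm_div, norm_one]
          have h1 : 1 ≤ ‖s - ρ i‖ := by
            refine le_trans ?_ (Complex.re_le_norm _)
            rw [Complex.sub_re, hsre]
            linarith [h.ρ0 i]
          rw [div_le_one (by linarith)]
          exact h1
      _ = k := by simp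
  have b2 : ‖((Real.log A / 2 : ℝ) : ℂ)‖ ≤ |Real.log A| / 2 := by
    rw [Complex.norm_real, Real.norm_eq_abs, abs_div, abs_two]
  have b3 : ‖(∑ j, logDeriv Gammaℝ (s + μ j)) - (m : ℝ) * Ar κ y‖ ≤
      ∑ j : Fin m, (|Real.log Real.pi| / 2 + Real.eulerMascheroniConstant / 2 +
        1 / κ + |c + μ j - 1 / 2| * S2) := by
    have e : (∑ j, logDeriv Gammaℝ (s + μ j)) - (m : ℝ) * Ar κ y =
        ∑ j : Fin m, (logDeriv Gammaℝ (s + μ j) - Ar κ y) := by
      rw [Finset.sum_sub_distrib]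
      simp
    rw [e]
    refine (norm_sum_le _ _).trans (Finset.sum_le_sum fun j _ => ?_)
    rw [logDeriv_Gammaℝ_series (hGre j)]
    have hre2 : (0 : ℝ) ≤ ((κ : ℂ) + 1 / 2 + y * I).re := by
      simp
      positivity
    have h1 := tsum_ar_sub (hGre j).le hre2
    have e2 : (s + μ j) - ((κ : ℂ) + 1 / 2 + y * I) = ((c + μ j - 1 / 2 : ℝ) : ℂ) := by
      rw [hs]
      push_cast
      ring
    rw [e2, Complex.norm_real, Real.norm_eq_abs] at h1
    have h2 : ‖1 / (s + μ j)‖ ≤ 1 / κ := by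
      rw [norm_div, norm_one]
      apply one_div_le_one_div_of_le hκ0
      refine le_trans ?_ (Complex.re_le_norm _)
      have := h.μ0 j
      simp [hsre]
      linarith
    have e3 : -(Real.log Real.pi : ℂ) / 2 - (Real.eulerMascheroniConstant : ℂ) / 2 - 1 / (s + μ j) +
        (∑' n : ℕ, ar n (s + μ j)) - Ar κ y =
        (((-(Real.log Real.pi) / 2 : ℝ) : ℂ) + ((-(Real.eulerMascheroniConstant) / 2 : ℝ) : ℂ)) +
        (-(1 / (s + μ j)) + ((∑' n : ℕ, ar n (s + μ j)) - ∑' n : ℕ, ar n (κ + 1 / 2 + y * I))) := by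
      unfold Ar
      push_cast
      ring
    rw [e3]
    have h3 : ‖((-(Real.log Real.pi) / 2 : ℝ) : ℂ)‖ ≤ |Real.log Real.pi| / 2 := by
      rw [Complex.norm_real, Real.norm_eq_abs, abs_div, abs_neg, abs_two]
    have h4 : ‖((-(Real.eulerMascheroniConstant) / 2 : ℝ) : ℂ)‖ ≤ Real.eulerMascheroniConstant / 2 := by
      rw [Complex.norm_real, Real.norm_eq_abs, abs_div, abs_neg, abs_two,
        abs_of_pos (by linarith [Real.one_half_lt_eulerMascheroniConstant])]
    refine (norm_add_le _ _).trans ?_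
    have h5 := norm_add_le ((-(Real.log Real.pi) / 2 : ℝ) : ℂ) ((-(Real.eulerMascheroniConstant) / 2 : ℝ) : ℂ)
    have h6 := norm_add_le (-(1 / (s + μ j))) ((∑' n : ℕ, ar n (s + μ j)) - ∑' n : ℕ, ar n (κ + 1 / 2 + y * I))
    rw [norm_neg] at h6
    linarith
  have b4 : ‖logDeriv D s‖ ≤ 1 := by
    rw [logDeriv_apply, norm_div]
    have h1 : ‖deriv (fun v => D v - 1) s‖ ≤ 1 / 2 / 1 := by
      refine Complex.norm_deriv_le_of_forall_mem_sphere_norm_le one_pos ?_ fun v hv => ?_
      · refine DifferentiableOn.diffContOnCl fun v hv => ?_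
        have h2 : ‖v - s‖ ≤ 1 := by
          have := Metric.closure_ball_subset_closedBall hv
          rwa [Metric.mem_closedBall, dist_eq_norm] at this
        have h3 := (Complex.abs_re_le_norm (v - s)).trans h2
        rw [Complex.sub_re, hsre, abs_le] at h3
        exact ((hDev v (by linarith [h3.1])).sub_const 1).differentiableWithinAt
      · have h2 : ‖v - s‖ = 1 := by rwa [mem_sphere_iff_norm] at hv
        have h3 := (Complex.abs_re_le_norm (v - s)).trans h2.le
        rw [Complex.sub_re, hsre, abs_le] at h3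
        exact hR v (by linarith [h3.1])
    rw [deriv_sub_const, div_one] at h1
    have h2 : 1 / 2 ≤ ‖D s‖ := by
      have h3 := hR s (by rw [hsre]; linarith)
      have h4 : ‖(1 : ℂ)‖ - ‖D s‖ ≤ ‖1 - D s‖ := norm_sub_norm_le _ _
      rw [norm_one, norm_sub_rev] at h4
      linarith
    rw [div_le_one (by linarith)]
    linarith
  have e5 : (∑ i, 1 / (s - ρ i)) + (((Real.log A / 2 : ℝ) : ℂ) + ∑ j, logDeriv Gammaℝ (s + μ j)) + logDeriv D s -
      (m : ℝ) * Ar κ y = (∑ i, 1 / (s - ρ i)) + (((Real.log A / 2 : ℝ) : ℂ) +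
        ((∑ j, logDeriv Gammaℝ (s + μ j)) - (m : ℝ) * Ar κ y)) + logDeriv D s := by ring
  rw [e5]
  refine (norm_add_le _ _).trans (add_le_add ((norm_add_le _ _).trans (add_le_add b1
    ((norm_add_le _ _).trans (add_le_add b2 b3)))) b4)

end Pool.Agent.Helper61.LG
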