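import Pool.Agent.Helper61.W.Right
import Pool.Agent.Helper61.GS.Op

set_option autoImplicit false

/-!
# Integrals over a vertical line
-/

namespace Pool.Agent.Helper61.LG

open Complex Filter Topology Set MeasureTheory
open Pool.Agent.Helper61.W
open scoped ComplexConjugate ContDiff

variable {Φ : ℝ → ℂ}

/-- partial fractions with a complex pole -/
lemma line_fracC (h : TF Φ) (σ : ℝ) (b : ℂ) (hb : 0 < σ + b.re) :
    ∫ y : ℝ, LT Φ (σ + y * I) * (1 / (σ + y * I + b)) =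
      2 * Real.pi * ∫ u in Ioi (0 : ℝ), Φ u * cexp (-b * u) := by
  have e1 : ∀ y : ℝ, LT Φ (σ + y * I) * (1 / (σ + y * I + b)) =
      ∫ u in Ioi (0 : ℝ), LT Φ (σ + y * I) * cexp (-(σ + y * I + b) * u) := by
    intro y
    rw [integral_const_mul, integral_exp_mul_complex_Ioi (by simp; linarith)]
    simp only [ofReal_zero, mul_zero, Complex.exp_zero]
    congr 1
    rw [neg_div_neg_eq]
  rw [integral_congr_ae (Eventually.of_forall e1)]
  rw [integral_integral_swap]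
  · rw [← integral_const_mul]
    apply setIntegral_congr_fun measurableSet_Ioi
    intro u _
    simp only
    have e2 : ∀ y : ℝ, LT Φ (σ + y * I) * cexp (-(σ + y * I + b) * u) =
        cexp (-b * u) * (LT Φ (σ + y * I) * cexp (-(σ + y * I) * u)) := by
      intro y
      have : cexp (-(σ + y * I + b) * u) = cexp (-b * u) * cexp (-(σ + y * I) * u) := by
        rw [← Complex.exp_add]; congr 1; ring
      rw [this]; ring
    rw [integral_congr_ae (Eventually.of_forall e2), integral_const_mul, LT_inversion h σ u]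
    ring
  · have i1 := (line_integrable h σ).norm
    have i2 : Integrable (fun u : ℝ => Real.exp (-(σ + b.re) * u)) (volume.restrict (Ioi 0)) :=
      integrableOn_exp_mul_Ioi (by linarith) 0
    refine (i1.mul_prod i2).mono' ?_ (Eventually.of_forall ?_)
    · apply Continuous.aestronglyMeasurable
      have := LT_continuous h
      unfold Function.uncurry
      fun_prop
    · rintro ⟨y, u⟩
      simp only [Function.uncurry]
      rw [norm_mul, Complex.norm_exp]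
      apply le_of_eq
      congr 2
      simp

lemma frac_split {w z : ℂ} (h1 : w - z ≠ 0) (h2 : w + z ≠ 0) :
    w / (w ^ 2 - z ^ 2) = 1 / 2 * (1 / (w + -z) + 1 / (w + z)) := by
  have h3 : w ^ 2 - z ^ 2 = (w - z) * (w + z) := by ring
  rw [h3, ← sub_eq_add_neg]
  field_simp
  ring

lemma frac_bound {κ β : ℝ} (hκ : β < κ) (hβ : 0 ≤ β) : ∃ K : ℝ, 0 ≤ K ∧ ∀ (y : ℝ) (z : ℂ), |z.re| ≤ β →
    ‖((κ : ℂ) + y * I) / (((κ : ℂ) + y * I) ^ 2 - z ^ 2)‖ ≤ K * (1 + y ^ 2) / (1 + ‖z‖) ^ 2 := by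
  set d : ℝ := κ - β with hd
  have hd0 : 0 < d := by linarith
  have hκ0 : 0 < κ := by linarith
  refine ⟨4 / 3 * (1 + 1 / κ) ^ 2 * (κ + 1) + (8 + 8 * κ ^ 2) / d, by positivity, fun y z hz => ?_⟩
  set w : ℂ := (κ : ℂ) + y * I with hw
  have hre : w.re = κ := by simp [hw]
  have him : w.im = y := by simp [hw]
  have hwκ : κ ≤ ‖w‖ := by rw [← hre]; exact Complex.re_le_norm w
  have hw0 : 0 < ‖w‖ := hκ0.trans_le hwκ
  have hwsq : ‖w‖ ^ 2 = κ ^ 2 + y ^ 2 := by
    rw [← Complex.normSq_eq_norm_sq, Complex.normSq_apply, hre, him]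
    ring
  have hz' := abs_le.mp hz
  have h1 : d ≤ ‖w - z‖ := by
    refine le_trans ?_ (Complex.re_le_norm _)
    rw [Complex.sub_re, hre]
    linarith [hz'.2]
  have h2 : d ≤ ‖w + z‖ := by
    refine le_trans ?_ (Complex.re_le_norm _)
    rw [Complex.add_re, hre]
    linarith [hz'.1]
  have hprod : ‖w ^ 2 - z ^ 2‖ = ‖w - z‖ * ‖w + z‖ := by
    rw [← norm_mul]
    congr 1
    ring
  have hz0 := norm_nonneg z
  rw [norm_div, div_le_div_iff₀ (by rw [hprod]; exact mul_pos (hd0.trans_le h1) (hd0.trans_le h2)) (by positivity)]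
  rcases le_or_gt (2 * ‖w‖) ‖z‖ with hA | hB
  · have h3 : 3 / 4 * ‖z‖ ^ 2 ≤ ‖w ^ 2 - z ^ 2‖ := by
      have h4 : ‖z ^ 2‖ - ‖w ^ 2‖ ≤ ‖z ^ 2 - w ^ 2‖ := norm_sub_norm_le _ _
      rw [norm_sub_rev, norm_pow, norm_pow] at h4
      nlinarith
    have h5 : 1 + ‖z‖ ≤ (1 + 1 / κ) * ‖z‖ := by
      have : 1 ≤ 1 / κ * ‖z‖ := by
        rw [one_div, inv_mul_eq_div, le_div_iff₀ hκ0]
        linarith
      linarith
    have h6 : (1 + ‖z‖) ^ 2 ≤ ((1 + 1 / κ) * ‖z‖) ^ 2 := by gcongr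
    have h7 : ‖w‖ ≤ (κ + 1) * (1 + y ^ 2) := by
      have h8 : ‖w‖ ≤ κ + |y| := by
        refine (Complex.norm_le_abs_re_add_abs_im w).trans (le_of_eq ?_)
        rw [hre, him, abs_of_pos hκ0]
      nlinarith [sq_abs y, abs_nonneg y, sq_nonneg (|y| - 1), sq_nonneg y]
    calc ‖w‖ * (1 + ‖z‖) ^ 2 ≤ ((κ + 1) * (1 + y ^ 2)) * ((1 + 1 / κ) * ‖z‖) ^ 2 := by gcongr
      _ = (4 / 3 * (1 + 1 / κ) ^ 2 * (κ + 1)) * (1 + y ^ 2) * (3 / 4 * ‖z‖ ^ 2) := by ring
      _ ≤ (4 / 3 * (1 + 1 / κ) ^ 2 * (κ + 1)) * (1 + y ^ 2) * ‖w ^ 2 - z ^ 2‖ := by gcongr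
      _ ≤ _ := by
        gcongr
        have : 0 ≤ (8 + 8 * κ ^ 2) / d := by positivity
        linarith
  · have h3 : d * ‖w‖ ≤ ‖w ^ 2 - z ^ 2‖ := by
      rw [hprod]
      have h4 : 2 * ‖w‖ ≤ ‖w - z‖ + ‖w + z‖ := by
        have e : 2 * w = (w - z) + (w + z) := by ring
        calc 2 * ‖w‖ = ‖2 * w‖ := by rw [norm_mul]; norm_num
          _ = ‖(w - z) + (w + z)‖ := by rw [← e]
          _ ≤ _ := norm_add_le _ _
      rcases le_total ‖w‖ ‖w - z‖ with h5 | h5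
      · nlinarith
      · have h6 : ‖w‖ ≤ ‖w + z‖ := by linarith
        nlinarith
    have h4 : (1 + ‖z‖) ^ 2 ≤ (8 + 8 * κ ^ 2) * (1 + y ^ 2) := by
      have h5 : (1 + ‖z‖) ^ 2 ≤ (1 + 2 * ‖w‖) ^ 2 := by gcongr
      have h6 : (1 + 2 * ‖w‖) ^ 2 ≤ 2 + 8 * ‖w‖ ^ 2 := by nlinarith [sq_nonneg (1 - 2 * ‖w‖)]
      rw [hwsq] at h6
      nlinarith [sq_nonneg y, sq_nonneg κ, mul_nonneg (sq_nonneg κ) (sq_nonneg y)]
    have h5 : ‖w‖ ≤ 1 / d * ‖w ^ 2 - z ^ 2‖ := by
      rw [one_div, inv_mul_eq_div, le_div_iff₀ hd0]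
      linarith
    calc ‖w‖ * (1 + ‖z‖) ^ 2 ≤ (1 / d * ‖w ^ 2 - z ^ 2‖) * ((8 + 8 * κ ^ 2) * (1 + y ^ 2)) := by gcongr
      _ = (8 + 8 * κ ^ 2) / d * (1 + y ^ 2) * ‖w ^ 2 - z ^ 2‖ := by ring
      _ ≤ _ := by
        gcongr
        have : 0 ≤ 4 / 3 * (1 + 1 / κ) ^ 2 * (κ + 1) := by positivity
        linarith

/-- the integral against one zero -/
lemma line_even (h : TF Φ) (he : ∀ u, Φ (-u) = Φ u) {κ : ℝ} {z : ℂ} (hz : |z.re| < κ) :
    ∫ y : ℝ, LT Φ (κ + y * I) * (((κ : ℂ) + y * I) / (((κ : ℂ) + y * I) ^ 2 - z ^ 2)) = Real.pi * LT Φ z := by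
  have hz' := abs_lt.mp hz
  have hne : ∀ (y : ℝ) (u : ℂ), |u.re| < κ → ((κ : ℂ) + y * I) + u ≠ 0 := by
    intro y u hu h0
    have h1 := congrArg Complex.re h0
    simp at h1
    have := abs_lt.mp hu
    linarith [this.1]
  have hzn : |(-z).re| < κ := by rwa [Complex.neg_re, abs_neg]
  have e1 : ∀ y : ℝ, LT Φ (κ + y * I) * (((κ : ℂ) + y * I) / (((κ : ℂ) + y * I) ^ 2 - z ^ 2)) =
      1 / 2 * (LT Φ (κ + y * I) * (1 / (κ + y * I + -z))) + 1 / 2 * (LT Φ (κ + y * I) * (1 / (κ + y * I + z))) := by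
    intro y
    rw [frac_split (by rw [sub_eq_add_neg]; exact hne y (-z) hzn) (hne y z hz)]
    ring
  have hint : ∀ u : ℂ, |u.re| < κ → Integrable (fun y : ℝ => LT Φ (κ + y * I) * (1 / (κ + y * I + u))) := by
    intro u hu
    have hu' := abs_lt.mp hu
    apply LT_line_integrable h κ (K := 1 / (κ + u.re))
    · exact continuous_const.div (by fun_prop) fun y => hne y u hu
    · intro y
      have h1 : κ + u.re ≤ ‖(κ : ℂ) + y * I + u‖ := by
        refine le_trans (le_of_eq ?_) (Complex.re_le_norm _)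
        simp
      have h2 : 0 < κ + u.re := by linarith [hu'.1]
      rw [norm_div, norm_one]
      have h3 : 1 / ‖(κ : ℂ) + y * I + u‖ ≤ 1 / (κ + u.re) := one_div_le_one_div_of_le h2 h1
      have h4 : 0 ≤ 1 / (κ + u.re) := by positivity
      nlinarith [sq_nonneg y, mul_nonneg h4 (sq_nonneg y)]
  rw [integral_congr_ae (Eventually.of_forall e1), integral_add ((hint _ hzn).const_mul _) ((hint _ hz).const_mul _),
    integral_const_mul, integral_const_mul, line_fracC h κ (-z) (by rw [Complex.neg_re]; linarith [hz'.2]),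
    line_fracC h κ z (by linarith [hz'.1])]
  have e2 : LT Φ z = (∫ u in Ioi (0 : ℝ), Φ u * cexp (-(-z) * u)) + ∫ u in Ioi (0 : ℝ), Φ u * cexp (-z * u) := by
    unfold W.LT
    rw [← integral_add_compl (s := Ioi (0 : ℝ)) measurableSet_Ioi (h.integrable z), compl_Ioi]
    congr 1
    · simp only [neg_neg]
    · have h1 := integral_comp_neg_Iic (0 : ℝ) (fun u : ℝ => Φ (-u) * cexp (z * ((-u : ℝ) : ℂ)))
      simp only [neg_neg, neg_zero] at h1
      rw [h1]
      apply setIntegral_congr_fun measurableSet_Ioi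
      intro u _
      simp only
      rw [he]
      congr 2
      push_cast
      ring
  rw [e2]
  ring

/-- the archimedean series on a general line -/
lemma line_arC (h : TF Φ) {κ : ℝ} (hκ : 0 < κ) :
    Integrable (fun y : ℝ => LT Φ (κ + y * I) * ∑' n : ℕ, ar n (κ + 1 / 2 + y * I)) ∧
    HasSum (fun n : ℕ => Φ 0 / (2 * ((n : ℂ) + 1)) - ∫ u in Ioi (0 : ℝ), Φ u * cexp (-(2 * n + 5 / 2) * u))
      (1 / (2 * Real.pi) * ∫ y : ℝ, LT Φ (κ + y * I) * ∑' n : ℕ, ar n (κ + 1 / 2 + y * I)) := by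
  have hpi : (2 * Real.pi : ℂ) ≠ 0 := mul_ne_zero two_ne_zero (by exact_mod_cast Real.pi_ne_zero)
  have hreq : ∀ y : ℝ, (κ + 1 / 2 + y * I : ℂ).re = κ + 1 / 2 := by intro y; simp
  have hre : ∀ y : ℝ, (0 : ℝ) ≤ (κ + 1 / 2 + y * I : ℂ).re := by intro y; rw [hreq]; positivity
  have hcont : ∀ n : ℕ, Continuous (fun y : ℝ => ar n (κ + 1 / 2 + y * I)) := by
    intro n
    unfold ar
    refine continuous_const.sub (continuous_const.div (by fun_prop) fun y hy => ?_)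
    have := congrArg Complex.re hy
    rw [Complex.add_re, hreq] at this
    simp at this
    have hn : (0 : ℝ) ≤ n := Nat.cast_nonneg n
    linarith
  have hnorm : ∀ y : ℝ, ‖(κ + 1 / 2 + y * I : ℂ)‖ ≤ (κ + 2) * (1 + y ^ 2) := by
    intro y
    have h1 := Complex.norm_le_abs_re_add_abs_im (κ + 1 / 2 + y * I : ℂ)
    have h3 : (κ + 1 / 2 + y * I : ℂ).im = y := by simp
    rw [hreq, h3, abs_of_pos (by positivity)] at h1
    nlinarith [sq_abs y, sq_nonneg (|y| - 1), abs_nonneg y, sq_nonneg y]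
  have hint : ∀ n : ℕ, Integrable (fun y : ℝ => LT Φ (κ + y * I) * ar n (κ + 1 / 2 + y * I)) := by
    intro n
    refine LT_line_integrable h κ (hcont n) (K := κ + 2) (fun y => ?_)
    refine (norm_ar_le n (hre y)).trans ?_
    have hn : (0 : ℝ) ≤ n := Nat.cast_nonneg n
    have h5 : ‖(κ + 1 / 2 + y * I : ℂ)‖ / ((n : ℝ) + 1) ^ 2 ≤ ‖(κ + 1 / 2 + y * I : ℂ)‖ := by
      apply div_le_self (norm_nonneg _)
      nlinarith
    exact h5.trans (hnorm y)
  have hN : Integrable (fun y : ℝ => ‖LT Φ (κ + y * I)‖ * ((κ + 2) * (1 + y ^ 2))) := by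
    have := (LT_line_integrable h κ (g := fun y => (((κ + 2) * (1 + y ^ 2) : ℝ) : ℂ)) (by fun_prop) (K := κ + 2)
      (fun y => by
        rw [Complex.norm_real, Real.norm_of_nonneg (by positivity)])).norm
    refine this.congr (Eventually.of_forall fun y => ?_)
    simp only
    rw [norm_mul, Complex.norm_real, Real.norm_of_nonneg (by positivity)]
  have hsum : Summable (fun n : ℕ => ∫ y : ℝ, ‖LT Φ (κ + y * I) * ar n (κ + 1 / 2 + y * I)‖) := by
    refine Summable.of_nonneg_of_le (fun n => integral_nonneg fun y => norm_nonneg _) (fun n => ?_)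
      (H370.DG.summable_inv_sq.mul_left (∫ y : ℝ, ‖LT Φ (κ + y * I)‖ * ((κ + 2) * (1 + y ^ 2))))
    rw [← integral_mul_const]
    refine integral_mono (hint n).norm (hN.mul_const _) fun y => ?_
    simp only
    rw [norm_mul]
    have h6 := norm_ar_le n (hre y)
    have h7 := hnorm y
    calc ‖LT Φ (κ + y * I)‖ * ‖ar n (κ + 1 / 2 + y * I)‖ ≤
          ‖LT Φ (κ + y * I)‖ * ((κ + 2) * (1 + y ^ 2) / ((n : ℝ) + 1) ^ 2) := by
          gcongr
          exact h6.trans (by gcongr)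
      _ = _ := by ring
  have key := hasSum_integral_of_summable_integral_norm hint hsum
  have e0 : ∀ y : ℝ, ∑' n : ℕ, LT Φ (κ + y * I) * ar n (κ + 1 / 2 + y * I) =
      LT Φ (κ + y * I) * ∑' n : ℕ, ar n (κ + 1 / 2 + y * I) := fun y => tsum_mul_left
  refine ⟨?_, ?_⟩
  · have hb : ∀ y : ℝ, ‖LT Φ (κ + y * I) * ∑' n : ℕ, ar n (κ + 1 / 2 + y * I)‖ ≤
        (‖LT Φ (κ + y * I)‖ * ((κ + 2) * (1 + y ^ 2))) * ∑' n : ℕ, 1 / ((n : ℝ) + 1) ^ 2 := by
      intro y
      rw [norm_mul, mul_assoc]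
      apply mul_le_mul_of_nonneg_left _ (norm_nonneg _)
      refine tsum_of_norm_bounded (H370.DG.summable_inv_sq.hasSum.mul_left _) fun n => ?_
      refine (norm_ar_le n (hre y)).trans ?_
      rw [div_eq_mul_one_div]
      exact mul_le_mul_of_nonneg_right (hnorm y) (by positivity)
    refine (hN.mul_const _).mono' ?_ (Eventually.of_forall hb)
    have hm : AEStronglyMeasurable (fun y : ℝ => ∑' n : ℕ, LT Φ (κ + y * I) * ar n (κ + 1 / 2 + y * I)) volume := by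
      have hlim : ∀ y : ℝ, Tendsto (fun N : ℕ => ∑ n ∈ Finset.range N, LT Φ (κ + y * I) * ar n (κ + 1 / 2 + y * I))
          atTop (𝓝 (∑' n : ℕ, LT Φ (κ + y * I) * ar n (κ + 1 / 2 + y * I))) := by
        intro y
        exact ((summable_ar (hre y)).mul_left _).hasSum.tendsto_sum_nat
      refine aestronglyMeasurable_of_tendsto_ae atTop (fun N => ?_) (Eventually.of_forall hlim)
      exact Finset.aestronglyMeasurable_fun_sum _ fun n _ => (hint n).aestronglyMeasurable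
    exact hm.congr (Eventually.of_forall e0)
  have e1 : ∫ y : ℝ, ∑' n : ℕ, LT Φ (κ + y * I) * ar n (κ + 1 / 2 + y * I) =
      ∫ y : ℝ, LT Φ (κ + y * I) * ∑' n : ℕ, ar n (κ + 1 / 2 + y * I) := by
    congr 1
    funext y
    exact e0 y
  rw [e1] at key
  have e2 : (fun n : ℕ => Φ 0 / (2 * ((n : ℂ) + 1)) -
      ∫ u in Ioi (0 : ℝ), Φ u * cexp (-(2 * n + 5 / 2) * u)) =
      fun n : ℕ => 1 / (2 * Real.pi : ℂ) * ∫ y : ℝ, LT Φ (κ + y * I) * ar n (κ + 1 / 2 + y * I) := by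
    funext n
    have hn : (0 : ℝ) ≤ n := Nat.cast_nonneg n
    have e3 : ∀ y : ℝ, LT Φ (κ + y * I) * ar n (κ + 1 / 2 + y * I) =
        1 / (2 * ((n : ℂ) + 1)) * LT Φ (κ + y * I) -
          LT Φ (κ + y * I) * (1 / (κ + y * I + ((2 * n + 5 / 2 : ℝ) : ℂ))) := by
      intro y
      unfold ar
      push_cast
      have : ((κ : ℂ) + 1 / 2 + y * I + 2 * ((n : ℂ) + 1)) = (κ + y * I + (2 * n + 5 / 2)) := by ring
      rw [this]
      ring
    have i1 : Integrable (fun y : ℝ => 1 / (2 * ((n : ℂ) + 1)) * LT Φ (κ + y * I)) :=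
      (line_integrable h κ).const_mul _
    have i2 : Integrable (fun y : ℝ => LT Φ (κ + y * I) *
        (1 / (κ + y * I + ((2 * n + 5 / 2 : ℝ) : ℂ)))) := by
      have := i1.sub (hint n)
      refine this.congr (Eventually.of_forall fun y => ?_)
      simp only [Pi.sub_apply]
      rw [e3 y]
      ring
    rw [integral_congr_ae (Eventually.of_forall e3), integral_sub i1 i2, integral_const_mul,
      line_const h κ, line_frac h κ _ (by positivity)]
    have hn1 : ((n : ℂ) + 1) ≠ 0 := by exact_mod_cast Nat.succ_ne_zero n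
    have e4 : ∫ u in Ioi (0 : ℝ), Φ u * cexp (-((2 * n + 5 / 2 : ℝ) : ℂ) * u) =
        ∫ u in Ioi (0 : ℝ), Φ u * cexp (-(2 * n + 5 / 2) * u) := by
      push_cast
      rfl
    rw [e4]
    generalize (∫ u in Ioi (0 : ℝ), Φ u * cexp (-(2 * n + 5 / 2) * u)) = J
    have hpi' : (Real.pi : ℂ) ≠ 0 := by exact_mod_cast Real.pi_ne_zero
    field_simp
  rw [e2]
  exact key.mul_left _

end Pool.Agent.Helper61.LG
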