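import Pool.Agent.Helper61.LG.Lf
import Pool.Agent.Helper61.GS.Cp

set_option autoImplicit false

/-!
# Plancherel's identity on a vertical line and the archimedean energy
-/

namespace Pool.Agent.Helper61.LG

open Filter Topology Set MeasureTheory Polynomial
open Complex (I)
open Pool.Agent.Helper61.W Pool.Agent.Helper61.W.GS
open scoped ComplexConjugate ContDiff

variable {a : ℝ} {g : ℝ → ℂ}

/-- Plancherel's identity on a line, as an inequality -/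
lemma plan (hg : g ∈ Ts a) (κ : ℝ) : Integrable (fun y : ℝ => ‖W.LT g (κ + y * I)‖ ^ 2) ∧
    ∫ y : ℝ, ‖W.LT g (κ + y * I)‖ ^ 2 ≤ 2 * Real.pi * (Real.exp (2 * |κ| * a) * ∫ x, ‖g x‖ ^ 2) := by
  set k : ℝ → ℂ := fun x => g x * Complex.exp ((κ : ℂ) * x) with hk
  have hgt := Ts.tf hg
  have hkt : TF k := by
    refine ⟨hgt.smooth.mul ?_, hgt.supp.mul_right⟩
    have h1 : ContDiff ℝ ∞ fun x : ℝ => (κ : ℂ) * (x : ℂ) := contDiff_const.mul Complex.ofRealCLM.contDiff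
    exact h1.cexp
  have h1 : ∀ y : ℝ, W.LT k (y * I) = W.LT g (κ + y * I) := by
    intro y
    unfold W.LT
    congr 1
    funext x
    simp only [hk]
    rw [mul_assoc, ← Complex.exp_add]
    congr 2
    ring
  have h2 : ∀ y : ℝ, W.LT (corr k) (((0 : ℝ) : ℂ) + y * I) = ((‖W.LT g (κ + y * I)‖ ^ 2 : ℝ) : ℂ) := by
    intro y
    rw [LT_corr hkt, Complex.ofReal_zero, zero_add]
    have e : -conj ((y : ℂ) * I) = y * I := by
      rw [map_mul, Complex.conj_ofReal, Complex.conj_I]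
      ring
    rw [e, h1, Complex.mul_conj, Complex.normSq_eq_norm_sq]
  have h3 := line_integrable hkt.corr 0
  have h4 := line_const hkt.corr 0
  simp_rw [h2] at h3 h4
  have hint : Integrable (fun y : ℝ => ‖W.LT g (κ + y * I)‖ ^ 2) := by
    have := h3.re
    exact this
  refine ⟨hint, ?_⟩
  rw [integral_complex_ofReal, corr_zero] at h4
  have h5 : ∫ y : ℝ, ‖W.LT g (κ + y * I)‖ ^ 2 = 2 * Real.pi * ∫ x, ‖k x‖ ^ 2 := by
    exact_mod_cast h4
  rw [h5]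
  apply mul_le_mul_of_nonneg_left _ (by positivity)
  rw [← integral_const_mul]
  have hi : Integrable fun x => ‖g x‖ ^ 2 := (Ts.memLp hg).integrable_norm_pow (by norm_num)
  have hik : Integrable fun x => ‖k x‖ ^ 2 := by
    have hm : MemLp k 2 (volume : Measure ℝ) := hkt.cont.memLp_of_hasCompactSupport hkt.supp
    exact hm.integrable_norm_pow (by norm_num)
  refine integral_mono hik (hi.const_mul _) fun x => ?_
  simp only [hk]
  rw [norm_mul, mul_pow, mul_comm]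
  rcases le_or_gt |x| a with hx | hx
  · apply mul_le_mul_of_nonneg_right _ (by positivity)
    rw [Complex.norm_exp, ← Real.exp_nat_mul]
    apply Real.exp_le_exp.mpr
    have e : ((κ : ℂ) * x).re = κ * x := by simp
    rw [e]
    have h6 : κ * x ≤ |κ| * a := by
      calc κ * x ≤ |κ * x| := le_abs_self _
        _ = |κ| * |x| := abs_mul _ _
        _ ≤ _ := mul_le_mul_of_nonneg_left hx (abs_nonneg _)
    push_cast
    linarith
  · rw [hg.2 x hx]
    simp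

/-- the symmetrised autocorrelation -/
noncomputable def Ps (g : ℝ → ℂ) (u : ℝ) : ℂ := corr g u + corr g (-u)

lemma Ps_tf (hg : TF g) : TF (Ps g) := by
  have h1 := hg.corr
  refine ⟨h1.smooth.add (h1.smooth.comp contDiff_neg), ?_⟩
  have h2 : HasCompactSupport (fun u : ℝ => corr g (-u)) := h1.supp.comp_homeomorph (Homeomorph.neg ℝ)
  exact h1.supp.add h2

lemma Ps_even (g : ℝ → ℂ) (u : ℝ) : Ps g (-u) = Ps g u := by
  unfold Ps
  rw [neg_neg, add_comm]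

lemma Ps_eq (g : ℝ → ℂ) (u : ℝ) : Ps g u = ((2 * (corr g u).re : ℝ) : ℂ) := corr_add u

lemma LT_Ps (hg : TF g) (z : ℂ) : W.LT (Ps g) z = W.LT (corr g) z + W.LT (corr g) (-z) := by
  have h1 := hg.corr
  have h2 : W.LT (fun u => corr g (-u)) z = W.LT (corr g) (-z) := by
    unfold W.LT
    rw [← integral_neg_eq_self (fun u : ℝ => corr g (-u) * Complex.exp (z * u))]
    congr 1
    funext u
    rw [neg_neg]
    push_cast
    congr 2
    ring
  rw [← h2]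
  unfold W.LT
  rw [← integral_add (h1.integrable z) (by
    have h3 : TF (fun u : ℝ => corr g (-u)) :=
      ⟨h1.smooth.comp contDiff_neg, h1.supp.comp_homeomorph (Homeomorph.neg ℝ)⟩
    exact h3.integrable z)]
  congr 1
  funext u
  unfold Ps
  ring

/-- the transform of the symmetrised autocorrelation is integrable over a line -/
lemma Ps_line (hg : g ∈ Ts a) (κ : ℝ) :
    ∫ y : ℝ, ‖W.LT (Ps g) (κ + y * I)‖ ≤ 4 * Real.pi * (Real.exp (2 * |κ| * a) * ∫ x, ‖g x‖ ^ 2) := by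
  have hgt := Ts.tf hg
  obtain ⟨i1, b1⟩ := plan hg κ
  obtain ⟨i2, b2⟩ := plan hg (-κ)
  rw [abs_neg] at b2
  have i3 : Integrable (fun y : ℝ => ‖W.LT g (κ + (-y : ℝ) * I)‖ ^ 2) := i1.comp_neg
  have i4 : Integrable (fun y : ℝ => ‖W.LT g ((-κ : ℝ) + (-y : ℝ) * I)‖ ^ 2) := i2.comp_neg
  have b3 : ∫ y : ℝ, ‖W.LT g (κ + (-y : ℝ) * I)‖ ^ 2 = ∫ y : ℝ, ‖W.LT g (κ + y * I)‖ ^ 2 :=
    integral_neg_eq_self (fun y : ℝ => ‖W.LT g (κ + y * I)‖ ^ 2) _
  have b4 : ∫ y : ℝ, ‖W.LT g ((-κ : ℝ) + (-y : ℝ) * I)‖ ^ 2 = ∫ y : ℝ, ‖W.LT g ((-κ : ℝ) + y * I)‖ ^ 2 :=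
    integral_neg_eq_self (fun y : ℝ => ‖W.LT g ((-κ : ℝ) + y * I)‖ ^ 2) _
  have hpt : ∀ y : ℝ, ‖W.LT (Ps g) (κ + y * I)‖ ≤
      1 / 2 * (‖W.LT g (κ + y * I)‖ ^ 2 + ‖W.LT g ((-κ : ℝ) + y * I)‖ ^ 2) +
      1 / 2 * (‖W.LT g (κ + (-y : ℝ) * I)‖ ^ 2 + ‖W.LT g ((-κ : ℝ) + (-y : ℝ) * I)‖ ^ 2) := by
    intro y
    rw [LT_Ps hgt, LT_corr hgt, LT_corr hgt]
    have e1 : -conj ((κ : ℂ) + y * I) = ((-κ : ℝ) : ℂ) + y * I := by
      rw [map_add, map_mul, Complex.conj_ofReal, Complex.conj_ofReal, Complex.conj_I]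
      push_cast
      ring
    have e2 : -((κ : ℂ) + y * I) = ((-κ : ℝ) : ℂ) + (-y : ℝ) * I := by
      push_cast
      ring
    have e3 : -conj (-((κ : ℂ) + y * I)) = (κ : ℂ) + (-y : ℝ) * I := by
      rw [map_neg, map_add, map_mul, Complex.conj_ofReal, Complex.conj_ofReal, Complex.conj_I]
      push_cast
      ring
    rw [e1, e3, e2]
    refine (norm_add_le _ _).trans ?_
    rw [norm_mul, norm_mul, Complex.norm_conj, Complex.norm_conj]
    have key : ∀ p q : ℝ, p * q ≤ 1 / 2 * (p ^ 2 + q ^ 2) := fun p q => by nlinarith [sq_nonneg (p - q)]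
    have k1 := key ‖W.LT g (κ + y * I)‖ ‖W.LT g ((-κ : ℝ) + y * I)‖
    have k2 := key ‖W.LT g (κ + (-y : ℝ) * I)‖ ‖W.LT g ((-κ : ℝ) + (-y : ℝ) * I)‖
    linarith [mul_comm ‖W.LT g ((-κ : ℝ) + (-y : ℝ) * I)‖ ‖W.LT g (κ + (-y : ℝ) * I)‖]
  have j1 : Integrable (fun y : ℝ => 1 / 2 * (‖W.LT g (κ + y * I)‖ ^ 2 + ‖W.LT g ((-κ : ℝ) + y * I)‖ ^ 2)) :=
    (i1.add i2).const_mul _
  have j2 : Integrable (fun y : ℝ =>
      1 / 2 * (‖W.LT g (κ + (-y : ℝ) * I)‖ ^ 2 + ‖W.LT g ((-κ : ℝ) + (-y : ℝ) * I)‖ ^ 2)) :=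
    (i3.add i4).const_mul _
  refine (integral_mono (line_integrable (Ps_tf hgt) κ).norm (j1.add j2) hpt).trans ?_
  have e5 : ∫ y : ℝ, ((1 / 2 * (‖W.LT g (κ + y * I)‖ ^ 2 + ‖W.LT g ((-κ : ℝ) + y * I)‖ ^ 2)) +
      (1 / 2 * (‖W.LT g (κ + (-y : ℝ) * I)‖ ^ 2 + ‖W.LT g ((-κ : ℝ) + (-y : ℝ) * I)‖ ^ 2))) =
      1 / 2 * ((∫ y : ℝ, ‖W.LT g (κ + y * I)‖ ^ 2) + ∫ y : ℝ, ‖W.LT g ((-κ : ℝ) + y * I)‖ ^ 2) +
      1 / 2 * ((∫ y : ℝ, ‖W.LT g (κ + y * I)‖ ^ 2) + ∫ y : ℝ, ‖W.LT g ((-κ : ℝ) + y * I)‖ ^ 2) := by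
    rw [integral_add j1 j2, integral_const_mul, integral_const_mul, integral_add i1 i2, integral_add i3 i4, b3, b4]
  refine (le_of_eq e5).trans ?_
  linarith

/-- the archimedean part of the form -/
noncomputable def J0 (g : ℝ → ℂ) : ℝ :=
  ∑' n : ℕ, ((corr g 0).re / (n + 1) - 2 * ∫ u in Ioi (0 : ℝ), (corr g u).re * Real.exp (-(2 * n + 5 / 2) * u))

lemma J0_eq (ha : 0 < a) (hg : g ∈ Ts a) : J0 g = a * ((∫ v in (0 : ℝ)..2, (Fa a g 0 - Fa a g v) / v) -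
    Real.log (4 * a) * Fa a g 0 + ∫ v in (0 : ℝ)..2, Fa a g v * (kap a v - 2 * a * Real.exp (a * v / 2))) := by
  obtain ⟨t1, t2⟩ := sc_T1 ha hg
  obtain ⟨L1, _, hL1⟩ := Au_lip t1
  obtain ⟨L2, _, hL2⟩ := Au_lip t2
  have hK : ∀ v, 0 ≤ v → v ≤ 2 → |Fa a g 0 - Fa a g v| ≤ (L1 + L2) * v := by
    intro v hv _
    have a1 := hL1 0 v
    have a2 := hL2 0 v
    rw [zero_sub, abs_neg, abs_of_nonneg hv] at a1 a2
    have e : Fa a g 0 - Fa a g v = (Au (fun s => (sc a g s).re) 0 - Au (fun s => (sc a g s).re) v) +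
        (Au (fun s => (sc a g s).im) 0 - Au (fun s => (sc a g s).im) v) := by
      unfold Fa
      ring
    rw [e]
    refine (abs_add_le _ _).trans ?_
    linarith
  have h1 : ∀ n : ℕ, (corr g 0).re / (n + 1) -
        2 * ∫ u in Ioi (0 : ℝ), (corr g u).re * Real.exp (-(2 * n + 5 / 2) * u) =
      a * (Fa a g 0 / (n + 1) - 2 * a * ∫ v in (0 : ℝ)..2, Fa a g v * Real.exp (a * (-(2 * n + 5 / 2)) * v)) := by
    intro n
    have e0 : ∀ u, (corr g u).re = a * Fa a g (u / a) := fun u => corr_re' ha (Ts.tf hg) u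
    simp_rw [e0]
    rw [scale_int ha (fun v hv => Fa_van ha hg hv), zero_div]
    ring
  unfold J0
  rw [tsum_congr h1, tsum_mul_left, arch_sum ha (Fa_cont ha hg) hK]

/-- the lower bound for the archimedean part -/
theorem J0_lower (ha : 0 < a) : ∃ C : ℝ, 0 ≤ C ∧ ∀ g ∈ Ts a, ∀ N : ℕ,
    ∃ p ∈ degreeLT ℝ N, ∃ q ∈ degreeLT ℝ N,
      a * (Hn N * (ip (fun s => (sc a g s).re - p.eval s) (fun s => (sc a g s).re - p.eval s) +
        ip (fun s => (sc a g s).im - q.eval s) (fun s => (sc a g s).im - q.eval s))) ≤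
      J0 g + C * ∫ x, ‖g x‖ ^ 2 := by
  set B : ℝ := 2 * a * Real.exp a + 2 * a + 2 * a * Real.exp a with hB
  have hB0 : 0 ≤ B := by positivity
  set D : ℝ := Real.log (4 * a) with hD
  refine ⟨2 * B + |D|, by positivity, fun g hg N => ?_⟩
  obtain ⟨t1, t2⟩ := sc_T1 ha hg
  obtain ⟨p, hp1, hp2⟩ := energy_gap t1 N
  obtain ⟨q, hq1, hq2⟩ := energy_gap t2 N
  refine ⟨p, hp1, q, hq1, ?_⟩
  rw [J0_eq ha hg, ← Fa_zero ha (Ts.tf hg)]
  have h0 : 0 ≤ Fa a g 0 := (abs_nonneg _).trans (Fa_bound ha hg 0)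
  have hkb : ∀ v, 0 < v → v ≤ 2 → |kap a v - 2 * a * Real.exp (a * v / 2)| ≤ B := by
    intro v hv hv2
    refine (abs_sub _ _).trans ?_
    have h1 := kap_bound ha hv hv2
    have h2 : |2 * a * Real.exp (a * v / 2)| ≤ 2 * a * Real.exp a := by
      rw [abs_of_nonneg (by positivity)]
      apply mul_le_mul_of_nonneg_left _ (by positivity)
      apply Real.exp_le_exp.mpr
      nlinarith
    linarith
  -- kernel
  have hk : |∫ v in (0 : ℝ)..2, Fa a g v * (kap a v - 2 * a * Real.exp (a * v / 2))| ≤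
      Fa a g 0 * B * |2 - 0| := by
    have := intervalIntegral.norm_integral_le_of_norm_le_const (a := (0 : ℝ)) (b := 2)
      (f := fun v => Fa a g v * (kap a v - 2 * a * Real.exp (a * v / 2))) (C := Fa a g 0 * B) (fun v hv => by
        rw [uIoc_of_le (by norm_num)] at hv
        rw [Real.norm_eq_abs, abs_mul]
        exact mul_le_mul (Fa_bound ha hg v) (hkb v hv.1 hv.2) (abs_nonneg _) h0)
    simpa using this
  rw [sub_zero, abs_of_pos (by norm_num : (0 : ℝ) < 2)] at hk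
  have hk' := abs_le.mp hk
  have hd : D * Fa a g 0 ≤ |D| * Fa a g 0 := mul_le_mul_of_nonneg_right (le_abs_self D) h0
  -- energy
  have hint : ∫ v in (0 : ℝ)..2, (Fa a g 0 - Fa a g v) / v =
      (∫ v in (0 : ℝ)..2, (Au (fun s => (sc a g s).re) 0 - Au (fun s => (sc a g s).re) v) / v) +
      ∫ v in (0 : ℝ)..2, (Au (fun s => (sc a g s).im) 0 - Au (fun s => (sc a g s).im) v) / v := by
    have hi : ∀ f : ℝ → ℝ, T1 f → IntervalIntegrable (fun v => (Au f 0 - Au f v) / v) volume 0 2 := by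
      intro f hf
      obtain ⟨L, hL0, hL⟩ := Au_lip hf
      have hc := (Au_cont hf).measurable
      apply ii_bdd (C := L) (by norm_num) (by fun_prop)
      intro v hv _
      rw [abs_div, abs_of_pos hv, div_le_iff₀ hv]
      have := hL 0 v
      rwa [zero_sub, abs_neg, abs_of_pos hv] at this
    rw [← intervalIntegral.integral_add (hi _ t1) (hi _ t2)]
    congr 1
    funext v
    unfold Fa
    ring
  rw [hint]
  have e1 := mul_le_mul_of_nonneg_left hp2 ha.le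
  have e2 := mul_le_mul_of_nonneg_left hq2 ha.le
  nlinarith [mul_le_mul_of_nonneg_left hd ha.le, mul_le_mul_of_nonneg_left hk'.1 ha.le]

end Pool.Agent.Helper61.LG
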