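import Pool.Agent.Helper61.LG.Zs
import Pool.Agent.Helper61.LG.Pl
import Pool.Agent.Helper61.GA.Mt

set_option autoImplicit false

/-!
# The lower bound for the form of a symmetric entire function
-/

namespace Pool.Agent.Helper61.LG

open Filter Topology Set MeasureTheory Polynomial
open Complex (I)
open Pool.Agent.Helper61.W Pool.Agent.Helper61.W.GS
open scoped ComplexConjugate ContDiff

variable {G : ℂ → ℂ} {ε : ℂ} {β a : ℝ} {Φ : ℝ → ℂ}

lemma Sy.summable_LT (S : Sy G ε β) (h : TF Φ) : Summable fun z : Zt G => (mt G z : ℂ) * W.LT Φ z := by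
  obtain ⟨C, hC, hb⟩ := LT_bound h β
  refine Summable.of_norm_bounded (S.summable.mul_right (C * (4 + 2 * β) ^ 2)) fun z => ?_
  have hm0 : 0 ≤ mt G z := by linarith [S.one_le z]
  rw [norm_mul, Complex.norm_real, Real.norm_of_nonneg hm0]
  have h1 := hb z (S.strip z z.2)
  set y := (z : ℂ).im with hy
  have h2 : ‖(z : ℂ)‖ ≤ β + |y| := by
    refine (Complex.norm_le_abs_re_add_abs_im _).trans ?_
    have := S.strip z z.2
    linarith
  have hβ := S.β0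
  have h3 : (1 + ‖(z : ℂ)‖) ^ 2 ≤ (4 + 2 * β) ^ 2 * (1 + y ^ 2) ^ 2 := by
    rw [← mul_pow]
    have h4 : 1 + ‖(z : ℂ)‖ ≤ (4 + 2 * β) * (1 + y ^ 2) := by
      nlinarith [sq_abs y, abs_nonneg y, sq_nonneg (|y| - 1), mul_nonneg hβ (sq_nonneg y)]
    have h5 := norm_nonneg (z : ℂ)
    gcongr
  have h4 : C / (1 + y ^ 2) ^ 2 ≤ C * (4 + 2 * β) ^ 2 / (1 + ‖(z : ℂ)‖) ^ 2 := by
    rw [div_le_div_iff₀ (by positivity) (by positivity)]
    nlinarith [mul_le_mul_of_nonneg_left h3 hC]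
  calc mt G z * ‖W.LT Φ z‖ ≤ mt G z * (C * (4 + 2 * β) ^ 2 / (1 + ‖(z : ℂ)‖) ^ 2) :=
        mul_le_mul_of_nonneg_left (h1.trans h4) hm0
    _ = _ := by ring

/-- the standard gamma part -/
noncomputable def Ar (κ y : ℝ) : ℂ := ∑' n : ℕ, ar n (κ + 1 / 2 + y * I)

lemma J0_series {g : ℝ → ℂ} (hg : TF g) {κ : ℝ} (hκ : 0 < κ) :
    1 / (2 * Real.pi) * ∫ y : ℝ, W.LT (Ps g) (κ + y * I) * Ar κ y = (J0 g : ℂ) := by
  have h1 := (line_arC (Ps_tf hg) hκ).2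
  unfold Ar
  rw [← h1.tsum_eq]
  unfold J0
  rw [Complex.ofReal_tsum]
  refine tsum_congr fun n => ?_
  have e1 : ∫ u in Ioi (0 : ℝ), Ps g u * Complex.exp (-(2 * n + 5 / 2) * u) =
      ((2 * ∫ u in Ioi (0 : ℝ), (corr g u).re * Real.exp (-(2 * n + 5 / 2) * u) : ℝ) : ℂ) := by
    rw [← integral_const_mul, ← integral_complex_ofReal]
    congr 1
    funext u
    rw [Ps_eq]
    push_cast
    ring
  rw [e1, Ps_eq]
  push_cast
  have hn1 : ((n : ℂ) + 1) ≠ 0 := by exact_mod_cast Nat.succ_ne_zero n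
  field_simp

theorem Sy.lower (S : Sy G ε β) {κ : ℝ} (hκ : β < κ) {m : ℝ} (hm : 1 ≤ m) {M : ℝ}
    (hM : ∀ y : ℝ, ‖deriv G (κ + y * I) / G (κ + y * I) - m * Ar κ y‖ ≤ M) {g : ℝ → ℂ} (hg : g ∈ Ts a) :
    m * J0 g - 2 * M * (Real.exp (2 * κ * a) * ∫ x, ‖g x‖ ^ 2) ≤
      (∑' z : Zt G, GA.wz (fun z : Zt G => (z : ℂ)) (mt G) g g z).re := by
  have hgt := Ts.tf hg
  have hκ0 : 0 < κ := S.β0.trans_lt hκ
  have hpi : (Real.pi : ℂ) ≠ 0 := by exact_mod_cast Real.pi_ne_zero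
  set Wt : ℂ := ∑' z : Zt G, GA.wz (fun z : Zt G => (z : ℂ)) (mt G) g g z with hWt
  have h1 : Wt = ∑' z : Zt G, (mt G z : ℂ) * W.LT (corr g) z := by
    refine tsum_congr fun z => ?_
    unfold GA.wz
    rw [LT_corr hgt]
  have h2 : Wt = ∑' z : Zt G, (mt G z : ℂ) * W.LT (corr g) (-z) := by
    rw [h1, ← S.neg.tsum_eq]
    refine tsum_congr fun z => ?_
    rw [S.mt_neg]
    rfl
  obtain ⟨i1, hs⟩ := S.zero_sum (Ps_tf hgt) (Ps_even g) hκ
  have hsA := S.summable_LT hgt.corr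
  have hsB : Summable fun z : Zt G => (mt G z : ℂ) * W.LT (corr g) (-z) := by
    rw [← S.neg.summable_iff]
    refine hsA.congr fun z => ?_
    simp only [Function.comp_apply]
    rw [S.mt_neg, show ((S.neg z : Zt G) : ℂ) = -z from rfl, neg_neg]
  have h3 : 2 * Wt = 1 / Real.pi * ∫ y : ℝ, W.LT (Ps g) (κ + y * I) * (deriv G (κ + y * I) / G (κ + y * I)) := by
    rw [← hs.tsum_eq]
    have e : ∀ z : Zt G, (mt G z : ℂ) * W.LT (Ps g) z =
        (mt G z : ℂ) * W.LT (corr g) z + (mt G z : ℂ) * W.LT (corr g) (-z) := by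
      intro z
      rw [LT_Ps hgt]
      ring
    rw [tsum_congr e, hsA.tsum_add hsB, ← h1, ← h2]
    ring
  set r : ℝ → ℂ := fun y => deriv G (κ + y * I) / G (κ + y * I) - m * Ar κ y with hr
  have i2 := (line_arC (Ps_tf hgt) hκ0).1
  have i2' : Integrable (fun y : ℝ => W.LT (Ps g) (κ + y * I) * Ar κ y) := i2
  have i3 : Integrable (fun y : ℝ => W.LT (Ps g) (κ + y * I) * r y) := by
    refine (i1.sub (i2'.const_mul (m : ℂ))).congr (Eventually.of_forall fun y => ?_)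
    simp only [hr, Pi.sub_apply]
    ring
  have h4 : ∫ y : ℝ, W.LT (Ps g) (κ + y * I) * (deriv G (κ + y * I) / G (κ + y * I)) =
      m * (∫ y : ℝ, W.LT (Ps g) (κ + y * I) * Ar κ y) + ∫ y : ℝ, W.LT (Ps g) (κ + y * I) * r y := by
    rw [← integral_const_mul, ← integral_add (i2'.const_mul _) i3]
    congr 1
    funext y
    simp only [hr]
    ring
  have h5 : Wt = m * J0 g + 1 / (2 * Real.pi) * ∫ y : ℝ, W.LT (Ps g) (κ + y * I) * r y := by
    have h6 : Wt = 1 / (2 * Real.pi) *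
        ∫ y : ℝ, W.LT (Ps g) (κ + y * I) * (deriv G (κ + y * I) / G (κ + y * I)) := by
      have : Wt = 1 / 2 * (2 * Wt) := by ring
      rw [this, h3, ← mul_assoc]
      congr 1
      field_simp
    rw [h6, h4, ← J0_series hgt hκ0]
    ring
  have hM0 : 0 ≤ M := (norm_nonneg _).trans (hM 0)
  have h6 : ‖1 / (2 * Real.pi : ℂ) * ∫ y : ℝ, W.LT (Ps g) (κ + y * I) * r y‖ ≤
      2 * M * (Real.exp (2 * κ * a) * ∫ x, ‖g x‖ ^ 2) := by
    rw [norm_mul]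
    have e1 : ‖1 / (2 * Real.pi : ℂ)‖ = 1 / (2 * Real.pi) := by
      have : (1 / (2 * Real.pi : ℂ)) = ((1 / (2 * Real.pi) : ℝ) : ℂ) := by push_cast; rfl
      rw [this, Complex.norm_real, Real.norm_of_nonneg (by positivity)]
    rw [e1]
    have h7 : ‖∫ y : ℝ, W.LT (Ps g) (κ + y * I) * r y‖ ≤ ∫ y : ℝ, ‖W.LT (Ps g) (κ + y * I)‖ * M := by
      refine (norm_integral_le_integral_norm _).trans ?_
      refine integral_mono i3.norm ((line_integrable (Ps_tf hgt) κ).norm.mul_const _) fun y => ?_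
      simp only
      rw [norm_mul]
      exact mul_le_mul_of_nonneg_left (hM y) (norm_nonneg _)
    rw [integral_mul_const] at h7
    have h8 := Ps_line hg κ
    rw [abs_of_pos hκ0] at h8
    calc 1 / (2 * Real.pi) * ‖∫ y : ℝ, W.LT (Ps g) (κ + y * I) * r y‖ ≤
          1 / (2 * Real.pi) * ((4 * Real.pi * (Real.exp (2 * κ * a) * ∫ x, ‖g x‖ ^ 2)) * M) :=
          mul_le_mul_of_nonneg_left (h7.trans (mul_le_mul_of_nonneg_right h8 hM0)) (by positivity)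
      _ = _ := by
        field_simp
        ring
  have h9 : Wt.re = m * J0 g + (1 / (2 * Real.pi : ℂ) * ∫ y : ℝ, W.LT (Ps g) (κ + y * I) * r y).re := by
    rw [h5, Complex.add_re, ← Complex.ofReal_mul, Complex.ofReal_re]
  rw [h9]
  have h10 := (Complex.abs_re_le_norm (1 / (2 * Real.pi : ℂ) * ∫ y : ℝ, W.LT (Ps g) (κ + y * I) * r y)).trans h6
  linarith [(abs_le.mp h10).1]

theorem Sy.approx (S : Sy G ε β) {κ : ℝ} (hκ : β < κ) {m : ℝ} (hm : 1 ≤ m) {M : ℝ}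
    (hM : ∀ y : ℝ, ‖deriv G (κ + y * I) / G (κ + y * I) - m * Ar κ y‖ ≤ M) (ha : 0 < a) :
    ∃ C : ℝ, 0 ≤ C ∧ ∀ (g : Ts a) (N : ℕ), ∃ Q ∈ PN a N,
      Hn N * ‖toL a g - Q‖ ^ 2 ≤ (∑' z : Zt G, GA.wz (fun z : Zt G => (z : ℂ)) (mt G) g g z).re +
        C * ‖toL a g‖ ^ 2 := by
  obtain ⟨C0, hC0, h0⟩ := J0_lower ha
  have hM0 : 0 ≤ M := (norm_nonneg _).trans (hM 0)
  refine ⟨m * C0 + 2 * M * Real.exp (2 * κ * a), by positivity, fun g N => ?_⟩
  obtain ⟨p, hp, q, hq, hle⟩ := h0 g g.2 N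
  refine ⟨_, cq_mem hp hq, ?_⟩
  rw [dist_cq ha, norm_toL]
  have h1 := S.lower hκ hm hM g.2
  set X := a * (Hn N * (ip (fun s => (sc a g s).re - p.eval s) (fun s => (sc a g s).re - p.eval s) +
        ip (fun s => (sc a g s).im - q.eval s) (fun s => (sc a g s).im - q.eval s))) with hX
  have hX0 : 0 ≤ X := by
    have h2 : X = Hn N * ‖toL a g - cqL a p q‖ ^ 2 := by
      rw [dist_cq ha, hX]
      ring
    rw [h2]
    have : 0 ≤ Hn N := by
      unfold Hn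
      exact Finset.sum_nonneg fun i _ => by positivity
    positivity
  have h3 : X ≤ m * (J0 g + C0 * ∫ x, ‖(g : ℝ → ℂ) x‖ ^ 2) := by
    have h4 : 0 ≤ J0 g + C0 * ∫ x, ‖(g : ℝ → ℂ) x‖ ^ 2 := hX0.trans hle
    nlinarith
  calc _ = X := by
        rw [hX]
        ring
    _ ≤ m * (J0 g + C0 * ∫ x, ‖(g : ℝ → ℂ) x‖ ^ 2) := h3
    _ = m * J0 g - 2 * M * (Real.exp (2 * κ * a) * ∫ x, ‖(g : ℝ → ℂ) x‖ ^ 2) +
        (m * C0 + 2 * M * Real.exp (2 * κ * a)) * ∫ x, ‖(g : ℝ → ℂ) x‖ ^ 2 := by ring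
    _ ≤ _ := by linarith

end Pool.Agent.Helper61.LG
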