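import Pool.Agent.Helper61.LG.Dl
import Pool.Agent.Helper61.GA.Zt
import Pool.Agent.Helper61.W.Xi1
import Pool.Agent.Helper75.Jen.XiG

set_option autoImplicit false

/-!
# The Riemann xi function as a completed L-function, and its configuration of zeros
-/

namespace Pool.Agent.Helper61.LG

open Complex Filter Topology Set
open scoped ComplexConjugate
open Pool.Agent.Helper40.HW Pool.Agent.Helper61.W Pool.Agent.V11271.LI

lemma Xi_fx (w : ℂ) : Xi (1 / 2 + w) = Helper75.Jen.fx w / 4 := by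
  unfold W.Xi Helper75.Jen.fx
  ring

lemma Xi_conj (s : ℂ) : Xi (conj s) = conj (Xi s) := by
  have e1 : s = 1 / 2 + (s - 1 / 2) := by ring
  have e2 : conj s = 1 / 2 + conj (s - 1 / 2) := by
    rw [map_sub]
    have : conj (1 / 2 : ℂ) = 1 / 2 := by
      rw [map_div₀, map_one, Complex.conj_ofNat]
    rw [this]
    ring
  rw [e2, Xi_fx, Helper75.Jen.fx_conj]
  conv_rhs => rw [e1, Xi_fx]
  rw [map_div₀, Complex.conj_ofNat]

lemma Xi_growth : ∃ (a : ℕ) (B : ℝ), ∀ s : ℂ, ‖Xi s‖ ≤ Real.exp (B * (1 + ‖s‖) ^ a) := by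
  obtain ⟨C, hC, h⟩ := Helper75.Jen.FF_growth
  refine ⟨2, 2 * C, fun s => ?_⟩
  have e1 : s = 1 / 2 + (s - 1 / 2) := by ring
  have h1 := h ((s - 1 / 2) ^ 2)
  rw [Helper75.Jen.FF_sq] at h1
  have h2 : ‖Xi s‖ ≤ ‖Helper75.Jen.fx (s - 1 / 2)‖ := by
    conv_lhs => rw [e1, Xi_fx]
    rw [norm_div]
    have : ‖(4 : ℂ)‖ = 4 := by simp
    rw [this]
    linarith [norm_nonneg (Helper75.Jen.fx (s - 1 / 2))]
  refine h2.trans (h1.trans (Real.exp_le_exp.mpr ?_))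
  have h3 : ‖s - 1 / 2‖ ≤ ‖s‖ + 1 / 2 := by
    refine (norm_sub_le _ _).trans ?_
    simp
  have h4 : (1 + ‖(s - 1 / 2) ^ 2‖) ^ (3 / 5 : ℝ) ≤ 1 + ‖(s - 1 / 2) ^ 2‖ := by
    have h5 : 1 ≤ 1 + ‖(s - 1 / 2) ^ 2‖ := by linarith [norm_nonneg ((s - 1 / 2) ^ 2)]
    calc (1 + ‖(s - 1 / 2) ^ 2‖) ^ (3 / 5 : ℝ) ≤ (1 + ‖(s - 1 / 2) ^ 2‖) ^ (1 : ℝ) :=
          Real.rpow_le_rpow_of_exponent_le h5 (by norm_num)
      _ = _ := Real.rpow_one _
  have h6 : 1 + ‖(s - 1 / 2) ^ 2‖ ≤ 2 * (1 + ‖s‖) ^ 2 := by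
    rw [norm_pow]
    have := norm_nonneg s
    have := norm_nonneg (s - 1 / 2)
    nlinarith
  calc C * (1 + ‖(s - 1 / 2) ^ 2‖) ^ (3 / 5 : ℝ) ≤ C * (2 * (1 + ‖s‖) ^ 2) := by
        gcongr
        exact h4.trans h6
    _ = _ := by ring

lemma zeta_tn : Tn riemannZeta := by
  intro δ hδ
  obtain ⟨R, hR⟩ : ∃ R : ℝ, ∀ x : ℝ, R ≤ x → (2 : ℝ) ^ (2 - x) ≤ δ := by
    have h1 : Tendsto (fun x : ℝ => (2 : ℝ) ^ (2 - x)) atTop (𝓝 0) := by
      have h2 : Tendsto (fun x : ℝ => 2 - x) atTop atBot := tendsto_atBot_mono (fun x => le_of_eq (by ring))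
        (tendsto_atBot_add_const_left _ 2 tendsto_neg_atTop_atBot)
      have h3 := (Real.tendsto_exp_atBot).comp (h2.const_mul_atBot (Real.log_pos one_lt_two))
      refine h3.congr fun x => ?_
      show Real.exp (Real.log 2 * (2 - x)) = _
      rw [Real.rpow_def_of_pos two_pos]
    obtain ⟨R, hR⟩ := eventually_atTop.mp (h1.eventually_le_const hδ)
    exact ⟨R, hR⟩
  exact ⟨max R 2, fun s hs => (Helper75.Jen.zeta_sub_one ((le_max_right _ _).trans hs)).trans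
    (hR _ ((le_max_left _ _).trans hs))⟩

/-- the function of Riemann -/
theorem Xi_LF : LF (fun _ : Fin 1 => (0 : ℝ)) ![(0 : ℂ), 1] 1 (1 / 2) (1 / 2) riemannZeta Xi 1 := by
  refine ⟨one_pos, one_pos, le_rfl, fun _ => by norm_num, fun i => ?_, fun s hs => ?_, ⟨2, fun s hs => ?_⟩,
    zeta_tn _ (by norm_num), Xi_diff, fun s hs => ?_, Xi_conj, Xi_growth, fun s => ?_, Or.inl rfl⟩
  · fin_cases i
    · simp
    · norm_num
  · exact riemannZeta_ne_zero_of_one_lt_re (by linarith)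
  · have h1 := Helper75.Jen.zeta_sub_one (s := s) (by linarith)
    have h2 : (2 : ℝ) ^ (2 - s.re) ≤ 1 := Real.rpow_le_one_of_one_le_of_nonpos (by norm_num) (by linarith)
    have h3 : ‖riemannZeta s‖ ≤ ‖riemannZeta s - 1‖ + ‖(1 : ℂ)‖ := by
      calc ‖riemannZeta s‖ = ‖(riemannZeta s - 1) + 1‖ := by ring_nf
        _ ≤ _ := norm_add_le _ _
    rw [norm_one] at h3
    linarith
  · have h1 : 1 < s.re := by linarith
    have h0 : s ≠ 0 := by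
      rintro rfl
      norm_num at h1
    have h2 : s ≠ 1 := by
      rintro rfl
      norm_num at h1
    rw [Xi_eq h0 h2 (Gammaℝ_ne_zero_of_re_pos (by linarith))]
    unfold Hf
    simp [Fin.prod_univ_two]
  · have : 2 * ((1 / 2 : ℝ) : ℂ) - s = 1 - s := by
      push_cast
      ring
    rw [this, Xi_symm, one_mul]

/-- the two indexings of the zeros -/
noncomputable def eqv : Zr ≃ Zt (fun z => Xi (((1 / 2 : ℝ) : ℂ) + z)) where
  toFun ρ := ⟨zz ρ, by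
    show Xi (((1 / 2 : ℝ) : ℂ) + zz ρ) = 0
    have : ((1 / 2 : ℝ) : ℂ) + zz ρ = (ρ : ℂ) := by
      unfold zz
      push_cast
      ring
    rw [this, Xi_eq_zero_iff]
    exact ρ.2⟩
  invFun z := ⟨(z : ℂ) + 1 / 2, by
    have h1 : Xi (((1 / 2 : ℝ) : ℂ) + (z : ℂ)) = 0 := z.2
    have : (z : ℂ) + 1 / 2 = ((1 / 2 : ℝ) : ℂ) + (z : ℂ) := by
      push_cast
      ring
    rw [this]
    exact (Xi_eq_zero_iff _).mp h1⟩
  left_inv ρ := Subtype.ext (by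
    show zz ρ + 1 / 2 = (ρ : ℂ)
    unfold zz
    ring)
  right_inv z := Subtype.ext (by
    show zz (⟨(z : ℂ) + 1 / 2, _⟩ : Zr) = (z : ℂ)
    unfold zz
    ring)

lemma order_eq (ρ : Zr) : analyticOrderNatAt Xi (ρ : ℂ) = analyticOrderNatAt riemannZeta (ρ : ℂ) := by
  unfold analyticOrderNatAt
  rw [Xi_order ρ.2.2.1 ρ.2.2.2]

lemma mt_eq (ρ : Zr) : mt (fun z => Xi (((1 / 2 : ℝ) : ℂ) + z)) (eqv ρ) = mm ρ := by
  unfold mt
  have e : ((eqv ρ : Zt (fun z => Xi (((1 / 2 : ℝ) : ℂ) + z))) : ℂ) = zz ρ := rfl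
  rw [e]
  have h2 : analyticOrderNatAt (fun z => Xi (((1 / 2 : ℝ) : ℂ) + z)) (zz ρ) = analyticOrderNatAt Xi (ρ : ℂ) := by
    unfold analyticOrderNatAt
    have hd : deriv (fun z : ℂ => ((1 / 2 : ℝ) : ℂ) + z) (zz ρ) ≠ 0 := by simp
    have h3 : analyticOrderAt (Xi ∘ fun z => ((1 / 2 : ℝ) : ℂ) + z) (zz ρ) =
        analyticOrderAt Xi (((1 / 2 : ℝ) : ℂ) + zz ρ) :=
      analyticOrderAt_comp_of_deriv_ne_zero (by fun_prop) hd
    have h4 : ((1 / 2 : ℝ) : ℂ) + zz ρ = (ρ : ℂ) := by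
      unfold zz
      push_cast
      ring
    rw [h4] at h3
    rw [← h3]
    rfl
  rw [h2, order_eq]
  rfl

/-- the forms agree -/
theorem Wf_eq (g : ℝ → ℂ) : (dat Xi_LF zeta_tn).Wf g g = GA.zetaDat.Wf g g := by
  have e1 : (dat Xi_LF zeta_tn).Wf g g = ∑' z : Zt (fun z => Xi (((1 / 2 : ℝ) : ℂ) + z)),
      ((mt (fun z => Xi (((1 / 2 : ℝ) : ℂ) + z)) z : ℝ) : ℂ) *
        (W.LT g (z : ℂ) * conj (W.LT g (-conj (z : ℂ)))) := rfl
  have e2 : GA.zetaDat.Wf g g = ∑' ρ : Zr, ((mm ρ : ℝ) : ℂ) *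
        (W.LT g (zz ρ) * conj (W.LT g (-conj (zz ρ)))) := rfl
  rw [e1, e2, ← eqv.tsum_eq]
  refine tsum_congr fun ρ => ?_
  rw [mt_eq]
  rfl

lemma low_eq (a : ℝ) : (dat Xi_LF zeta_tn).low a = GA.zetaDat.low a := by
  unfold GA.Dat.low
  simp only [Wf_eq]

/-- an entire function which is `s (s - 1) Γ_ℝ(s) ζ(s)` on the right -/
lemma eq_Xi {F : ℂ → ℂ} (hF : Differentiable ℂ F)
    (h : ∀ s : ℂ, 1 < s.re → F s = s * (s - 1) * Gammaℝ s * riemannZeta s) : F = Xi := by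
  refine AnalyticOnNhd.eq_of_eventuallyEq (z₀ := (2 : ℂ)) (fun z _ => hF.analyticAt z)
    (fun z _ => Xi_diff.analyticAt z) ?_
  have h1 : {z : ℂ | 1 < z.re} ∈ 𝓝 (2 : ℂ) :=
    (isOpen_lt continuous_const Complex.continuous_re).mem_nhds (by simp)
  filter_upwards [h1] with z hz
  have hz' : 1 < z.re := hz
  have h0 : z ≠ 0 := by
    rintro rfl
    norm_num at hz'
  have h2 : z ≠ 1 := by
    rintro rfl
    norm_num at hz'
  rw [h z hz', Xi_eq h0 h2 (Gammaℝ_ne_zero_of_re_pos (by linarith))]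

end Pool.Agent.Helper61.LG
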