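import Pool.Agent.Helper61.LG.Lf
import Pool.Agent.Helper39.PF.Main

set_option autoImplicit false

/-!
# The sum over the zeros of a symmetric entire function as an integral
-/

namespace Pool.Agent.Helper61.LG

open Complex Filter Topology Set MeasureTheory
open Pool.Agent.Helper61.W
open scoped ComplexConjugate ContDiff

/-- an entire function with a symmetry, of order less than two, with its zeros in a strip -/
structure Sy (G : ℂ → ℂ) (ε : ℂ) (β : ℝ) : Prop where
  diff : Differentiable ℂ G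
  ne : ∃ z, G z ≠ 0
  growth : ∃ C : ℝ, 0 ≤ C ∧ ∀ z : ℂ, ‖G z‖ ≤ Real.exp (C * (1 + ‖z‖) ^ (6 / 5 : ℝ))
  sgn : ε = 1 ∨ ε = -1
  symm : ∀ z, G (-z) = ε * G z
  β0 : 0 ≤ β
  strip : ∀ z, G z = 0 → |z.re| ≤ β

variable {G : ℂ → ℂ} {ε : ℂ} {β : ℝ} {Φ : ℝ → ℂ}

/-- the zeros -/
abbrev Zt (G : ℂ → ℂ) : Type := {z : ℂ // G z = 0}

/-- the multiplicities -/
noncomputable def mt (G : ℂ → ℂ) (z : Zt G) : ℝ := (analyticOrderNatAt G (z : ℂ) : ℝ)

lemma Sy.analytic (S : Sy G ε β) (z : ℂ) : AnalyticAt ℂ G z := S.diff.analyticAt z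

lemma Sy.order_ne_top (S : Sy G ε β) (z : ℂ) : analyticOrderAt G z ≠ ⊤ := by
  intro h
  rw [analyticOrderAt_eq_top] at h
  obtain ⟨w, hw⟩ := S.ne
  apply hw
  have h1 : AnalyticOnNhd ℂ G univ := fun z _ => S.analytic z
  exact h1.eqOn_zero_of_preconnected_of_eventuallyEq_zero isPreconnected_univ (mem_univ z) h (mem_univ w)

lemma Sy.one_le (S : Sy G ε β) (z : Zt G) : 1 ≤ mt G z := by
  unfold mt
  have h1 : analyticOrderNatAt G (z : ℂ) ≠ 0 := by
    intro h
    unfold analyticOrderNatAt at h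
    rw [ENat.toNat_eq_zero] at h
    rcases h with h | h
    · rw [(S.analytic z).analyticOrderAt_eq_zero] at h
      exact h z.2
    · exact S.order_ne_top z h
  exact_mod_cast Nat.one_le_iff_ne_zero.mpr h1

lemma Sy.summable (S : Sy G ε β) : Summable fun z : Zt G => mt G z / (1 + ‖(z : ℂ)‖) ^ 2 :=
  (Pool.Agent.Helper39.PF.pf S.diff S.ne S.growth S.sgn S.symm).1

lemma Sy.countable (S : Sy G ε β) : Countable (Zt G) := by
  have h := S.summable.countable_support
  have e : Function.support (fun z : Zt G => mt G z / (1 + ‖(z : ℂ)‖) ^ 2) = univ := by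
    rw [eq_univ_iff_forall]
    intro z
    have : 0 < mt G z / (1 + ‖(z : ℂ)‖) ^ 2 := div_pos (by linarith [S.one_le z]) (by positivity)
    exact this.ne'
  rw [e] at h
  exact countable_univ_iff.mp h

lemma Sy.hasSum (S : Sy G ε β) {w : ℂ} (hw : G w ≠ 0) : HasSum (fun z : Zt G =>
    (mt G z : ℂ) * (w / (w ^ 2 - (z : ℂ) ^ 2))) (deriv G w / G w) := by
  have h := (Pool.Agent.Helper39.PF.pf S.diff S.ne S.growth S.sgn S.symm).2 w hw
  refine Eq.mp (congrArg (fun f => HasSum f _) ?_) h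
  funext z
  unfold mt
  push_cast
  rfl

/-- the negation on the zeros -/
noncomputable def Sy.neg (S : Sy G ε β) : Zt G ≃ Zt G where
  toFun z := ⟨-z, by rw [S.symm, z.2, mul_zero]⟩
  invFun z := ⟨-z, by rw [S.symm, z.2, mul_zero]⟩
  left_inv z := Subtype.ext (neg_neg _)
  right_inv z := Subtype.ext (neg_neg _)

lemma Sy.order_neg (S : Sy G ε β) (z : ℂ) : analyticOrderAt G (-z) = analyticOrderAt G z := by
  have hε : ε ≠ 0 := by
    rcases S.sgn with h | h <;> rw [h] <;> simp
  have h1 : (G ∘ fun z => -z) = fun z => ε * G z := funext S.symm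
  have h2 : analyticOrderAt (G ∘ fun z => -z) z = analyticOrderAt G (-z) := by
    have hd : deriv (fun z : ℂ => -z) z ≠ 0 := by
      rw [deriv_neg'']
      norm_num
    exact analyticOrderAt_comp_of_deriv_ne_zero (by fun_prop) hd
  rw [← h2, h1]
  rcases S.sgn with h | h
  · simp only [h, one_mul]
  · have e : (fun z => ε * G z) = -G := by
      funext z
      rw [h]
      simp
    rw [e, analyticOrderAt_neg]

lemma Sy.mt_neg (S : Sy G ε β) (z : Zt G) : mt G (S.neg z) = mt G z := by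
  unfold mt analyticOrderNatAt
  rw [show ((S.neg z : Zt G) : ℂ) = -z from rfl, S.order_neg]

/-- the order at conjugate points -/
lemma order_conj {f : ℂ → ℂ} (hd : Differentiable ℂ f) (hf : ∀ z, f (conj z) = conj (f z)) (z : ℂ)
    (htop : analyticOrderAt f z ≠ ⊤) : analyticOrderAt f (conj z) = analyticOrderAt f z := by
  obtain ⟨n, hn⟩ := ENat.ne_top_iff_exists.mp htop
  rw [← hn]
  have ha := hd.analyticAt z
  obtain ⟨g, hg1, hg2, hg3⟩ := (ha.analyticOrderAt_eq_natCast).mp hn.symm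
  rw [(hd.analyticAt (conj z)).analyticOrderAt_eq_natCast]
  have hc : Tendsto (fun w : ℂ => conj w) (𝓝 (conj z)) (𝓝 z) := by
    have := (Complex.continuous_conj).tendsto (conj z)
    rwa [Complex.conj_conj] at this
  refine ⟨fun w => conj (g (conj w)), ?_, ?_, ?_⟩
  · rw [analyticAt_iff_eventually_differentiableAt] at hg1 ⊢
    filter_upwards [hc.eventually hg1] with w hw
    have h1 : DifferentiableAt ℂ g (conj w) := hw
    have h2 := h1.conj_conj
    rw [Complex.conj_conj] at h2
    exact h2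
  · simp only [Complex.conj_conj]
    intro h
    apply hg2
    rw [← Complex.conj_conj (g z), h, map_zero]
  · filter_upwards [hc.eventually hg3] with w hw
    have h1 : f w = conj (f (conj w)) := by
      rw [hf, Complex.conj_conj]
    rw [h1, hw]
    simp only [smul_eq_mul, map_mul, map_pow, map_sub, Complex.conj_conj]

lemma Sy.line_ne (S : Sy G ε β) {κ : ℝ} (hκ : β < κ) (y : ℝ) : G (κ + y * I) ≠ 0 := by
  intro h
  have h1 := S.strip _ h
  have h2 : ((κ : ℂ) + y * I).re = κ := by simp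
  rw [h2] at h1
  have := le_abs_self κ
  linarith

lemma Sy.line_cont (S : Sy G ε β) {κ : ℝ} (hκ : β < κ) :
    Continuous fun y : ℝ => deriv G (κ + y * I) / G (κ + y * I) := by
  have hd : Continuous (deriv G) := by
    have h1 : AnalyticOnNhd ℂ G univ := fun z _ => S.analytic z
    have h2 : Differentiable ℂ (deriv G) := fun z => (h1.deriv z (mem_univ z)).differentiableAt
    exact h2.continuous
  have hG := S.diff.continuous
  exact Continuous.div (hd.comp (by fun_prop)) (hG.comp (by fun_prop)) fun y => S.line_ne hκ y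

/-- the sum over the zeros as an integral -/
theorem Sy.zero_sum (S : Sy G ε β) (h : TF Φ) (he : ∀ u, Φ (-u) = Φ u) {κ : ℝ} (hκ : β < κ) :
    Integrable (fun y : ℝ => LT Φ (κ + y * I) * (deriv G (κ + y * I) / G (κ + y * I))) ∧
    HasSum (fun z : Zt G => (mt G z : ℂ) * LT Φ z)
      (1 / Real.pi * ∫ y : ℝ, LT Φ (κ + y * I) * (deriv G (κ + y * I) / G (κ + y * I))) := by
  have := S.countable
  have hpi : (Real.pi : ℂ) ≠ 0 := by exact_mod_cast Real.pi_ne_zero
  obtain ⟨K, hK, hb⟩ := frac_bound hκ S.β0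
  set q : Zt G → ℝ → ℂ := fun z y => (mt G z : ℂ) *
    (((κ : ℂ) + y * I) / (((κ : ℂ) + y * I) ^ 2 - (z : ℂ) ^ 2)) with hq
  have hzκ : ∀ z : Zt G, |(z : ℂ).re| < κ := fun z => (S.strip z z.2).trans_lt hκ
  have hne : ∀ (z : Zt G) (y : ℝ), ((κ : ℂ) + y * I) ^ 2 - (z : ℂ) ^ 2 ≠ 0 := by
    intro z y h0
    have h1 : (((κ : ℂ) + y * I) - z) * (((κ : ℂ) + y * I) + z) = 0 := by
      linear_combination h0
    have h2 := abs_lt.mp (hzκ z)
    rcases mul_eq_zero.mp h1 with h3 | h3
    · have := congrArg Complex.re h3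
      simp at this
      linarith [h2.2]
    · have := congrArg Complex.re h3
      simp at this
      linarith [h2.1]
  have hqc : ∀ z, Continuous (q z) := by
    intro z
    exact continuous_const.mul (Continuous.div (by fun_prop) (by fun_prop) fun y => hne z y)
  have hm0 : ∀ z : Zt G, 0 ≤ mt G z := fun z => by linarith [S.one_le z]
  have hqb : ∀ z y, ‖q z y‖ ≤ (mt G z / (1 + ‖(z : ℂ)‖) ^ 2) * K * (1 + y ^ 2) := by
    intro z y
    simp only [hq]
    rw [norm_mul, Complex.norm_real, Real.norm_of_nonneg (hm0 z)]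
    refine (mul_le_mul_of_nonneg_left (hb y z (S.strip z z.2)) (hm0 z)).trans (le_of_eq ?_)
    ring
  have hint : ∀ z : Zt G, Integrable (fun y : ℝ => LT Φ (κ + y * I) * q z y) := fun z =>
    LT_line_integrable h κ (hqc z) (K := (mt G z / (1 + ‖(z : ℂ)‖) ^ 2) * K) (hqb z)
  have hN : Integrable (fun y : ℝ => ‖LT Φ (κ + y * I)‖ * (1 + y ^ 2)) := by
    have := (LT_line_integrable h κ (g := fun y => ((1 + y ^ 2 : ℝ) : ℂ)) (by fun_prop) (K := 1)
      (fun y => by
        rw [Complex.norm_real, Real.norm_of_nonneg (by positivity), one_mul])).norm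
    refine this.congr (Eventually.of_forall fun y => ?_)
    simp only
    rw [norm_mul, Complex.norm_real, Real.norm_of_nonneg (by positivity)]
  have hsum : Summable (fun z : Zt G => ∫ y : ℝ, ‖LT Φ (κ + y * I) * q z y‖) := by
    refine Summable.of_nonneg_of_le (fun n => integral_nonneg fun y => norm_nonneg _) (fun z => ?_)
      (S.summable.mul_right (K * ∫ y : ℝ, ‖LT Φ (κ + y * I)‖ * (1 + y ^ 2)))
    rw [← integral_const_mul, ← integral_const_mul]
    refine integral_mono (hint z).norm ((hN.const_mul _).const_mul _) fun y => ?_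
    simp only
    rw [norm_mul]
    calc ‖LT Φ (κ + y * I)‖ * ‖q z y‖ ≤
          ‖LT Φ (κ + y * I)‖ * ((mt G z / (1 + ‖(z : ℂ)‖) ^ 2) * K * (1 + y ^ 2)) :=
          mul_le_mul_of_nonneg_left (hqb z y) (norm_nonneg _)
      _ = _ := by ring
  have key := hasSum_integral_of_summable_integral_norm hint hsum
  have e1 : ∀ y : ℝ, ∑' z : Zt G, LT Φ (κ + y * I) * q z y =
      LT Φ (κ + y * I) * (deriv G (κ + y * I) / G (κ + y * I)) := by
    intro y
    rw [tsum_mul_left, (S.hasSum (S.line_ne hκ y)).tsum_eq]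
  have e2 : ∀ z : Zt G, ∫ y : ℝ, LT Φ (κ + y * I) * q z y = Real.pi * ((mt G z : ℂ) * LT Φ z) := by
    intro z
    have e3 : ∀ y : ℝ, LT Φ (κ + y * I) * q z y = (mt G z : ℂ) * (LT Φ (κ + y * I) *
        (((κ : ℂ) + y * I) / (((κ : ℂ) + y * I) ^ 2 - (z : ℂ) ^ 2))) := by
      intro y
      simp only [hq]
      ring
    rw [integral_congr_ae (Eventually.of_forall e3), integral_const_mul, line_even h he (hzκ z)]
    ring
  rw [integral_congr_ae (Eventually.of_forall e1), funext e2] at key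
  refine ⟨?_, ?_⟩
  · have hb2 : ∀ y : ℝ, ‖LT Φ (κ + y * I) * (deriv G (κ + y * I) / G (κ + y * I))‖ ≤
        (∑' z : Zt G, (mt G z / (1 + ‖(z : ℂ)‖) ^ 2)) * K * (‖LT Φ (κ + y * I)‖ * (1 + y ^ 2)) := by
      intro y
      rw [norm_mul]
      have h1 : ‖deriv G (κ + y * I) / G (κ + y * I)‖ ≤
          (∑' z : Zt G, (mt G z / (1 + ‖(z : ℂ)‖) ^ 2)) * (K * (1 + y ^ 2)) := by
        rw [← (S.hasSum (S.line_ne hκ y)).tsum_eq]
        refine tsum_of_norm_bounded (S.summable.hasSum.mul_right _) fun z => ?_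
        refine (hqb z y).trans (le_of_eq ?_)
        ring
      calc _ ≤ ‖LT Φ (κ + y * I)‖ * ((∑' z : Zt G, (mt G z / (1 + ‖(z : ℂ)‖) ^ 2)) * (K * (1 + y ^ 2))) :=
            mul_le_mul_of_nonneg_left h1 (norm_nonneg _)
        _ = _ := by ring
    refine (hN.const_mul _).mono' ?_ (Eventually.of_forall hb2)
    have h2 := S.line_cont hκ
    have h3 := LT_continuous h
    exact (Continuous.mul (h3.comp (by fun_prop)) h2).aestronglyMeasurable
  · have h4 := key.mul_left (1 / (Real.pi : ℂ))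
    refine Eq.mp (congrArg (fun f => HasSum f _) ?_) h4
    funext z
    field_simp

end Pool.Agent.Helper61.LG
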